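import Mathlib

set_option autoImplicit false

namespace Pool.Agent.Helper141

open Set

variable {E : Type*} [AddCommGroup E] [Module ℝ E]

/-- The dimension of a set, with `-1` for the empty set: otherwise the rank of the space spanned
by the differences of its points (the dimension of its affine hull). -/
noncomputable def pdim (P : Set E) : ℤ :=
  open Classical in if P.Nonempty then (Module.finrank ℝ (vectorSpan ℝ P) : ℤ) else -1

/-- The set of points of `X` of colour `i`. -/
def colorClass (X : Finset E) {r : ℕ} (c : E → Fin r) (i : Fin r) : Set E :=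
  {x | x ∈ X ∧ c x = i}

/-- The intersection of the convex hulls of the `r` colour classes: the set of Tverberg points of
the partition of `X` given by the colouring `c`. -/
def cell (X : Finset E) {r : ℕ} (c : E → Fin r) : Set E :=
  ⋂ i, convexHull ℝ (colorClass X c i)

/-- The set `T_r(X)` of the Tverberg points of the partitions of `X` into `r` parts. -/
def tverbergSet (X : Finset E) (r : ℕ) : Set E := {x | ∃ c : E → Fin r, x ∈ cell X c}

/-- The dimension of `T_r(X)`: the largest dimension of its pieces, one for each partition of `X`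
into `r` parts. -/
noncomputable def tdim (X : Finset E) (r : ℕ) : ℤ :=
  sSup {m : ℤ | ∃ c : E → Fin r, m = pdim (cell X c)}

section Basic

variable [FiniteDimensional ℝ E]

omit [FiniteDimensional ℝ E] in
theorem neg_one_le_pdim (P : Set E) : -1 ≤ pdim P := by
  unfold pdim
  split_ifs <;> omega

theorem pdim_le (P : Set E) : pdim P ≤ Module.finrank ℝ E := by
  unfold pdim
  split_ifs
  · exact_mod_cast Submodule.finrank_le _
  · omega

theorem bddAbove_pdim (X : Finset E) (r : ℕ) :
    BddAbove {m : ℤ | ∃ c : E → Fin r, m = pdim (cell X c)} := by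
  refine ⟨Module.finrank ℝ E, ?_⟩
  rintro _ ⟨c, rfl⟩
  exact pdim_le _

theorem pdim_le_tdim (X : Finset E) {r : ℕ} (c : E → Fin r) : pdim (cell X c) ≤ tdim X r :=
  le_csSup (bddAbove_pdim X r) ⟨c, rfl⟩

theorem neg_one_le_tdim (X : Finset E) {r : ℕ} (hr : 1 ≤ r) : -1 ≤ tdim X r := by
  obtain ⟨p, rfl⟩ : ∃ p, r = p + 1 := ⟨r - 1, by omega⟩
  exact le_trans (neg_one_le_pdim _) (pdim_le_tdim X (fun _ => (0 : Fin (p + 1))))

omit [FiniteDimensional ℝ E] in
theorem zero_le_pdim {P : Set E} (h : P.Nonempty) : 0 ≤ pdim P := by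
  unfold pdim
  rw [if_pos h]
  omega

theorem zero_le_tdim_of_mem (X : Finset E) {r : ℕ} (c : E → Fin r) {x : E} (hx : x ∈ cell X c) :
    0 ≤ tdim X r :=
  le_trans (zero_le_pdim ⟨x, hx⟩) (pdim_le_tdim X c)

/-- If every direction of the subspace `W` can be followed a little from the point `z` inside
`P`, then the dimension of `P` is at least the dimension of `W`. -/
theorem finrank_le_pdim {P : Set E} {z : E} (hz : z ∈ P) (W : Submodule ℝ E)
    (h : ∀ w ∈ W, ∃ ε : ℝ, 0 < ε ∧ z + ε • w ∈ P) : (Module.finrank ℝ W : ℤ) ≤ pdim P := by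
  unfold pdim
  rw [if_pos ⟨z, hz⟩]
  have : W ≤ vectorSpan ℝ P := by
    intro w hw
    obtain ⟨ε, hε, hmem⟩ := h w hw
    have h1 : (z + ε • w) -ᵥ z ∈ vectorSpan ℝ P := vsub_mem_vectorSpan ℝ hmem hz
    have h2 : (z + ε • w) -ᵥ z = ε • w := by simp [vsub_eq_sub]
    rw [h2] at h1
    have h3 := Submodule.smul_mem _ ε⁻¹ h1
    rwa [smul_smul, inv_mul_cancel₀ hε.ne', one_smul] at h3
  exact_mod_cast Submodule.finrank_mono this

end Basic

/-- Two-sided directions of a convex set `C` at `z`. -/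
theorem twoSided_of_mem_span {C : Set E} (hC : Convex ℝ C) {z : E} (hz : z ∈ C) {S : Set E}
    (hS : ∀ s ∈ S, ∃ ε : ℝ, 0 < ε ∧ z + ε • s ∈ C ∧ z - ε • s ∈ C) {w : E}
    (hw : w ∈ Submodule.span ℝ S) : ∃ ε : ℝ, 0 < ε ∧ z + ε • w ∈ C ∧ z - ε • w ∈ C := by
  -- scaling down
  have hdown : ∀ (v : E) (ε δ : ℝ), 0 ≤ δ → δ ≤ ε → 0 < ε → z + ε • v ∈ C → z + δ • v ∈ C := by
    intro v ε δ h0 h1 h2 h3
    have h4 := hC hz h3 (a := 1 - δ / ε) (b := δ / ε)
      (by rw [sub_nonneg, div_le_one h2]; exact h1) (by positivity) (by ring)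
    have h5 : (1 - δ / ε) • z + (δ / ε) • (z + ε • v) = z + δ • v := by
      rw [smul_add, smul_smul, div_mul_cancel₀ _ h2.ne', sub_smul, one_smul]
      abel
    rwa [h5] at h4
  have hdown' : ∀ (v : E) (ε δ : ℝ), 0 ≤ δ → δ ≤ ε → 0 < ε → z - ε • v ∈ C → z - δ • v ∈ C := by
    intro v ε δ h0 h1 h2 h3
    have := hdown (-v) ε δ h0 h1 h2 (by rwa [smul_neg, ← sub_eq_add_neg])
    rwa [smul_neg, ← sub_eq_add_neg] at this
  have hmid : ∀ a b : E, z + a ∈ C → z + b ∈ C → z + (1 / 2 : ℝ) • (a + b) ∈ C := by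
    intro a b ha hb
    have h4 := hC ha hb (a := 1 / 2) (b := 1 / 2) (by norm_num) (by norm_num) (by norm_num)
    have h5 : (1 / 2 : ℝ) • (z + a) + (1 / 2 : ℝ) • (z + b) = z + (1 / 2 : ℝ) • (a + b) := by
      have : z = (1 / 2 : ℝ) • z + (1 / 2 : ℝ) • z := by
        rw [← add_smul]; norm_num
      rw [smul_add, smul_add, smul_add]
      nth_rewrite 3 [this]
      abel
    rwa [h5] at h4
  induction hw using Submodule.span_induction with
  | mem s hs => exact hS s hs
  | zero => exact ⟨1, one_pos, by simpa using hz, by simpa using hz⟩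
  | add v v' _ _ ih ih' =>
    obtain ⟨ε, hε, h1, h2⟩ := ih
    obtain ⟨ε', hε', h1', h2'⟩ := ih'
    have hm : 0 < min ε ε' := lt_min hε hε'
    refine ⟨(1 / 2) * min ε ε', by positivity, ?_, ?_⟩
    · have := hmid _ _ (hdown v ε _ hm.le (min_le_left _ _) hε h1)
        (hdown v' ε' _ hm.le (min_le_right _ _) hε' h1')
      rw [← smul_add, smul_smul] at this
      exact this
    · have := hmid (-(min ε ε' • v)) (-(min ε ε' • v'))
        (by rw [← sub_eq_add_neg]; exact hdown' v ε _ hm.le (min_le_left _ _) hε h2)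
        (by rw [← sub_eq_add_neg]; exact hdown' v' ε' _ hm.le (min_le_right _ _) hε' h2')
      rw [← neg_add, smul_neg, ← smul_add, smul_smul, ← sub_eq_add_neg] at this
      exact this
  | smul a v _ ih =>
    obtain ⟨ε, hε, h1, h2⟩ := ih
    rcases lt_trichotomy a 0 with ha | ha | ha
    · refine ⟨ε / (-a), div_pos hε (neg_pos.2 ha), ?_, ?_⟩
      · rw [smul_smul, show ε / (-a) * a = -ε by rw [div_neg, neg_mul, div_mul_cancel₀ _ ha.ne], neg_smul, ← sub_eq_add_neg]
        exact h2
      · rw [smul_smul, show ε / (-a) * a = -ε by rw [div_neg, neg_mul, div_mul_cancel₀ _ ha.ne], neg_smul, sub_neg_eq_add]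
        exact h1
    · subst ha
      exact ⟨1, one_pos, by simpa using hz, by simpa using hz⟩
    · refine ⟨ε / a, div_pos hε ha, ?_, ?_⟩
      · rw [smul_smul, div_mul_cancel₀ _ ha.ne']; exact h1
      · rw [smul_smul, div_mul_cancel₀ _ ha.ne']; exact h2

end Pool.Agent.Helper141
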