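import Mathlib

set_option autoImplicit false

/-!
Subspaces `U` of `ι → ℝ` without nonzero nonnegative vectors: the spaces of affine dependences of
finite point families.  The Tverberg and Radon type statements are phrased for `U`.
-/

namespace Pool.Agent.Helper141

variable {ι : Type*} [Fintype ι]

/-- No nonzero vector of `U` is nonnegative. -/
def Pointed (U : Submodule ℝ (ι → ℝ)) : Prop := ∀ y ∈ U, (∀ i, 0 ≤ y i) → y = 0

/-- Three nonnegative nonzero vectors with pairwise disjoint supports and differences in `U`. -/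
def HasT3 (U : Submodule ℝ (ι → ℝ)) : Prop :=
  ∃ f g h : ι → ℝ, (∀ i, 0 ≤ f i) ∧ (∀ i, 0 ≤ g i) ∧ (∀ i, 0 ≤ h i) ∧
    (∀ i, f i = 0 ∨ g i = 0) ∧ (∀ i, f i = 0 ∨ h i = 0) ∧ (∀ i, g i = 0 ∨ h i = 0) ∧
    f ≠ 0 ∧ f - g ∈ U ∧ f - h ∈ U

/-- A vector `z` of `U` of full support such that `U` has no nonzero vector supported in the
positive part, or in the negative part, of `z`. -/
def IsGood (U : Submodule ℝ (ι → ℝ)) (z : ι → ℝ) : Prop :=
  z ∈ U ∧ (∀ i, z i = 0 → ∀ y ∈ U, y i = 0) ∧
    (∀ y ∈ U, (∀ i, z i ≤ 0 → y i = 0) → y = 0) ∧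
    (∀ y ∈ U, (∀ i, 0 ≤ z i → y i = 0) → y = 0)

def HasGood (U : Submodule ℝ (ι → ℝ)) : Prop := ∃ z, IsGood U z

/-- The vectors of `U` that vanish at `x`. -/
def delCoord (U : Submodule ℝ (ι → ℝ)) (x : ι) : Submodule ℝ (ι → ℝ) :=
  U ⊓ LinearMap.ker (LinearMap.proj x : (ι → ℝ) →ₗ[ℝ] ℝ)

omit [Fintype ι] in
theorem mem_delCoord {U : Submodule ℝ (ι → ℝ)} {x : ι} {y : ι → ℝ} :
    y ∈ delCoord U x ↔ y ∈ U ∧ y x = 0 := by
  simp [delCoord]

omit [Fintype ι] in
theorem Pointed.delCoord {U : Submodule ℝ (ι → ℝ)} (h : Pointed U) (x : ι) :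
    Pointed (delCoord U x) := fun y hy => h y (mem_delCoord.1 hy).1

omit [Fintype ι] in
theorem HasT3.of_le {U U' : Submodule ℝ (ι → ℝ)} (hle : U ≤ U') (h : HasT3 U) : HasT3 U' := by
  obtain ⟨f, g, k, h1, h2, h3, h4, h5, h6, h7, h8, h9⟩ := h
  exact ⟨f, g, k, h1, h2, h3, h4, h5, h6, h7, hle h8, hle h9⟩

/-- A small multiple of `y` added to `z` does not change the nonzero signs of `z`. -/
theorem exists_small (z y : ι → ℝ) : ∃ ε : ℝ, 0 < ε ∧ ∀ t : ℝ, |t| ≤ ε →
    ∀ i, (0 < z i → 0 < z i + t * y i) ∧ (z i < 0 → z i + t * y i < 0) := by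
  classical
  have h1 : ∀ i, ∃ ε : ℝ, 0 < ε ∧ ∀ t : ℝ, |t| ≤ ε →
      (0 < z i → 0 < z i + t * y i) ∧ (z i < 0 → z i + t * y i < 0) := by
    intro i
    by_cases hz : z i = 0
    · exact ⟨1, one_pos, fun t _ => ⟨fun h => absurd hz h.ne', fun h => absurd hz h.ne⟩⟩
    · have hpos : 0 < |z i| := abs_pos.2 hz
      refine ⟨|z i| / (2 * (|y i| + 1)), by positivity, fun t ht => ?_⟩
      have h2 : |t * y i| ≤ |z i| / 2 := by
        rw [abs_mul]
        calc |t| * |y i| ≤ |z i| / (2 * (|y i| + 1)) * |y i| :=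
              mul_le_mul_of_nonneg_right ht (abs_nonneg _)
          _ ≤ |z i| / (2 * (|y i| + 1)) * (|y i| + 1) :=
              mul_le_mul_of_nonneg_left (by linarith) (by positivity)
          _ = |z i| / 2 := by field_simp
      have h3 := abs_le.1 h2
      constructor
      · intro h
        rw [abs_of_pos h] at h3
        linarith [h3.1]
      · intro h
        rw [abs_of_neg h] at h3
        linarith [h3.2]
  choose ε hε hmem using h1
  rcases isEmpty_or_nonempty ι with hι | hι
  · exact ⟨1, one_pos, fun t _ i => isEmptyElim i⟩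
  obtain ⟨i₀, -, hi₀⟩ := Finset.exists_min_image Finset.univ ε Finset.univ_nonempty
  exact ⟨ε i₀, hε i₀, fun t ht i => hmem i t (ht.trans (hi₀ i (Finset.mem_univ i)))⟩

/-- The step from `delCoord U x` to `U`. -/
theorem step {U : Submodule ℝ (ι → ℝ)} {x : ι} {ζ z : ι → ℝ} (hζ : ζ ∈ U)
    (hζx : ζ x = 1) (hz : IsGood (delCoord U x) z) :
    HasGood U ∨ ∃ ζA ζB : ι → ℝ, ζA ∈ U ∧ ζB ∈ U ∧ ζA x = 1 ∧ ζB x = 1 ∧
      (∀ i, z i < 0 → ζA i = 0) ∧ (∀ i, 0 < z i → ζB i = 0) ∧
      (∀ i, z i = 0 → 0 ≤ ζA i ∧ ζB i = ζA i) := by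
  classical
  obtain ⟨hzU, hzero, hposi, hnegi⟩ := hz
  have hzU' := mem_delCoord.1 hzU
  -- decomposition of vectors of `U`
  have hdec : ∀ y ∈ U, y - y x • ζ ∈ delCoord U x := by
    intro y hy
    refine mem_delCoord.2 ⟨U.sub_mem hy (U.smul_mem _ hζ), ?_⟩
    simp [hζx]
  have hoff : ∀ y ∈ U, ∀ i, z i = 0 → y i = y x * ζ i := by
    intro y hy i hi
    have := hzero i hi _ (hdec y hy)
    simp only [Pi.sub_apply, Pi.smul_apply, smul_eq_mul] at this
    linarith
  obtain ⟨ε, hε, hsmall⟩ := exists_small z ζ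
  have hplus := hsmall ε (le_of_eq (abs_of_pos hε))
  have hminus := hsmall (-ε) (by rw [abs_neg]; exact le_of_eq (abs_of_pos hε))
  have hzp : z + ε • ζ ∈ U := U.add_mem hzU'.1 (U.smul_mem _ hζ)
  have hzm : z - ε • ζ ∈ U := U.sub_mem hzU'.1 (U.smul_mem _ hζ)
  have hzerop : ∀ i, (z + ε • ζ) i = 0 → z i = 0 ∧ ζ i = 0 := by
    intro i hi
    simp only [Pi.add_apply, Pi.smul_apply, smul_eq_mul] at hi
    rcases lt_trichotomy (z i) 0 with h | h | h
    · exact absurd hi ((hplus i).2 h).ne
    · refine ⟨h, ?_⟩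
      rw [h, zero_add] at hi
      exact (mul_eq_zero.1 hi).resolve_left hε.ne'
    · exact absurd hi ((hplus i).1 h).ne'
  have hzerom : ∀ i, (z - ε • ζ) i = 0 → z i = 0 ∧ ζ i = 0 := by
    intro i hi
    simp only [Pi.sub_apply, Pi.smul_apply, smul_eq_mul] at hi
    rcases lt_trichotomy (z i) 0 with h | h | h
    · exact absurd hi (by have := ((hminus i).2 h).ne; intro h'; apply this; linarith)
    · refine ⟨h, ?_⟩
      rw [h, zero_sub, neg_eq_zero] at hi
      exact (mul_eq_zero.1 hi).resolve_left hε.ne'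
    · exact absurd hi (by have := ((hminus i).1 h).ne'; intro h'; apply this; linarith)
  by_cases hneg : ∃ c, z c = 0 ∧ ζ c < 0
  · -- both sides are good
    obtain ⟨c, hc0, hcneg⟩ := hneg
    left
    refine ⟨z + ε • ζ, hzp, ?_, ?_, ?_⟩
    · intro i hi y hy
      obtain ⟨h1, h2⟩ := hzerop i hi
      rw [hoff y hy i h1, h2, mul_zero]
    · -- supported in the positive part
      intro y hy hsup
      have hc : y c = 0 := hsup c (by
        simp only [Pi.add_apply, Pi.smul_apply, smul_eq_mul, hc0, zero_add]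
        exact (mul_neg_of_pos_of_neg hε hcneg).le)
      have hyx : y x = 0 := by
        rw [hoff y hy c hc0] at hc
        exact (mul_eq_zero.1 hc).resolve_right hcneg.ne
      refine hposi y (mem_delCoord.2 ⟨hy, hyx⟩) fun i hi => ?_
      rcases hi.lt_or_eq with h | h
      · exact hsup i (by
          simp only [Pi.add_apply, Pi.smul_apply, smul_eq_mul]
          exact ((hplus i).2 h).le)
      · rw [hoff y hy i h, hyx, zero_mul]
    · intro y hy hsup
      have hyx : y x = 0 := hsup x (by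
        simp only [Pi.add_apply, Pi.smul_apply, smul_eq_mul, hzU'.2, hζx]
        linarith)
      refine hnegi y (mem_delCoord.2 ⟨hy, hyx⟩) fun i hi => ?_
      rcases hi.lt_or_eq with h | h
      · exact hsup i (by
          simp only [Pi.add_apply, Pi.smul_apply, smul_eq_mul]
          exact ((hplus i).1 h).le)
      · rw [hoff y hy i h.symm, hyx, zero_mul]
  · push Not at hneg
    by_cases hA : ∀ y ∈ U, (∀ i, (z + ε • ζ) i ≤ 0 → y i = 0) → y = 0
    · left
      refine ⟨z + ε • ζ, hzp, ?_, hA, ?_⟩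
      · intro i hi y hy
        obtain ⟨h1, h2⟩ := hzerop i hi
        rw [hoff y hy i h1, h2, mul_zero]
      · intro y hy hsup
        have hyx : y x = 0 := hsup x (by
          simp only [Pi.add_apply, Pi.smul_apply, smul_eq_mul, hzU'.2, hζx]
          linarith)
        refine hnegi y (mem_delCoord.2 ⟨hy, hyx⟩) fun i hi => ?_
        rcases hi.lt_or_eq with h | h
        · exact hsup i (by
            simp only [Pi.add_apply, Pi.smul_apply, smul_eq_mul]
            exact ((hplus i).1 h).le)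
        · rw [hoff y hy i h.symm, hyx, zero_mul]
    by_cases hB : ∀ y ∈ U, (∀ i, 0 ≤ (z - ε • ζ) i → y i = 0) → y = 0
    · left
      refine ⟨z - ε • ζ, hzm, ?_, ?_, hB⟩
      · intro i hi y hy
        obtain ⟨h1, h2⟩ := hzerom i hi
        rw [hoff y hy i h1, h2, mul_zero]
      · intro y hy hsup
        have hyx : y x = 0 := hsup x (by
          simp only [Pi.sub_apply, Pi.smul_apply, smul_eq_mul, hzU'.2, hζx]
          linarith)
        refine hposi y (mem_delCoord.2 ⟨hy, hyx⟩) fun i hi => ?_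
        rcases hi.lt_or_eq with h | h
        · exact hsup i (by
            simp only [Pi.sub_apply, Pi.smul_apply, smul_eq_mul]
            have := (hminus i).2 h
            linarith)
        · rw [hoff y hy i h, hyx, zero_mul]
    · right
      push Not at hA hB
      obtain ⟨yA, hyA, hsA, hneA⟩ := hA
      obtain ⟨yB, hyB, hsB, hneB⟩ := hB
      have hyAx : yA x ≠ 0 := by
        intro h0
        apply hneA
        refine hposi yA (mem_delCoord.2 ⟨hyA, h0⟩) fun i hi => ?_
        rcases hi.lt_or_eq with h | h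
        · exact hsA i (by
            simp only [Pi.add_apply, Pi.smul_apply, smul_eq_mul]
            exact ((hplus i).2 h).le)
        · rw [hoff yA hyA i h, h0, zero_mul]
      have hyBx : yB x ≠ 0 := by
        intro h0
        apply hneB
        refine hnegi yB (mem_delCoord.2 ⟨hyB, h0⟩) fun i hi => ?_
        rcases hi.lt_or_eq with h | h
        · exact hsB i (by
            simp only [Pi.sub_apply, Pi.smul_apply, smul_eq_mul]
            have := (hminus i).1 h
            linarith)
        · rw [hoff yB hyB i h.symm, h0, zero_mul]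
      refine ⟨(yA x)⁻¹ • yA, (yB x)⁻¹ • yB, U.smul_mem _ hyA, U.smul_mem _ hyB, ?_, ?_, ?_, ?_, ?_⟩
      · simp [hyAx]
      · simp [hyBx]
      · intro i hi
        have : yA i = 0 := hsA i (by
          simp only [Pi.add_apply, Pi.smul_apply, smul_eq_mul]
          exact ((hplus i).2 hi).le)
        simp [this]
      · intro i hi
        have : yB i = 0 := hsB i (by
          simp only [Pi.sub_apply, Pi.smul_apply, smul_eq_mul]
          have := (hminus i).1 hi
          linarith)
        simp [this]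
      · intro i hi
        have h1 : ((yA x)⁻¹ • yA) i = ζ i := by
          simp only [Pi.smul_apply, smul_eq_mul]
          rw [hoff yA hyA i hi, ← mul_assoc, inv_mul_cancel₀ hyAx, one_mul]
        have h2 : ((yB x)⁻¹ • yB) i = ζ i := by
          simp only [Pi.smul_apply, smul_eq_mul]
          rw [hoff yB hyB i hi, ← mul_assoc, inv_mul_cancel₀ hyBx, one_mul]
        rw [h1, h2]
        exact ⟨hneg i hi, rfl⟩

end Pool.Agent.Helper141
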