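import Mathlib
import Pool.Agent.Helper141_tverberg.Subspace

set_option autoImplicit false

namespace Pool.Agent.Helper141

variable {ι : Type*} [Fintype ι]

/-- The vectors of `U` supported in `S`. -/
def onSet (U : Submodule ℝ (ι → ℝ)) (S : Set ι) : Submodule ℝ (ι → ℝ) where
  carrier := {y | y ∈ U ∧ ∀ i, i ∉ S → y i = 0}
  add_mem' := by
    rintro a b ⟨h1, h2⟩ ⟨h3, h4⟩
    exact ⟨U.add_mem h1 h3, fun i hi => by rw [Pi.add_apply, h2 i hi, h4 i hi, add_zero]⟩
  zero_mem' := ⟨U.zero_mem, fun _ _ => rfl⟩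
  smul_mem' := by
    rintro c a ⟨h1, h2⟩
    exact ⟨U.smul_mem _ h1, fun i hi => by rw [Pi.smul_apply, h2 i hi, smul_zero]⟩

omit [Fintype ι] in
theorem mem_onSet {U : Submodule ℝ (ι → ℝ)} {S : Set ι} {y : ι → ℝ} :
    y ∈ onSet U S ↔ y ∈ U ∧ ∀ i, i ∉ S → y i = 0 := Iff.rfl

omit [Fintype ι] in
theorem onSet_le {U : Submodule ℝ (ι → ℝ)} {S : Set ι} : onSet U S ≤ U := fun _ h => h.1

omit [Fintype ι] in
theorem onSet_mono {U : Submodule ℝ (ι → ℝ)} {S T : Set ι} (h : S ⊆ T) : onSet U S ≤ onSet U T :=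
  fun _ hy => ⟨hy.1, fun i hi => hy.2 i (fun h' => hi (h h'))⟩

omit [Fintype ι] in
theorem onSet_onSet {U : Submodule ℝ (ι → ℝ)} {S T : Set ι} (h : T ⊆ S) :
    onSet (onSet U S) T = onSet U T := by
  apply le_antisymm
  · intro y hy
    exact ⟨hy.1.1, hy.2⟩
  · intro y hy
    exact ⟨⟨hy.1, fun i hi => hy.2 i (fun h' => hi (h h'))⟩, hy.2⟩

/-- `k` nonnegative nonzero vectors with pairwise disjoint supports and differences in `U`. -/
def HasT (U : Submodule ℝ (ι → ℝ)) (k : ℕ) : Prop :=
  ∃ f : Fin k → ι → ℝ, (∀ j i, 0 ≤ f j i) ∧ (∀ j, f j ≠ 0) ∧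
    (∀ j j', j ≠ j' → ∀ i, f j i = 0 ∨ f j' i = 0) ∧ ∀ j j', f j - f j' ∈ U

/-- The thinness hypothesis: every Radon pair spans a set of dimension at most `0`. -/
def Thin (U : Submodule ℝ (ι → ℝ)) : Prop :=
  ∀ z ∈ U, Module.finrank ℝ (onSet U {i | z i ≠ 0}) ≤
    Module.finrank ℝ (onSet U {i | 0 < z i}) + Module.finrank ℝ (onSet U {i | z i < 0}) + 1

omit [Fintype ι] in
theorem Thin.onSet {U : Submodule ℝ (ι → ℝ)} (h : Thin U) (S : Set ι) :
    Thin (Pool.Agent.Helper141.onSet U S) := by
  intro z hz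
  have hsub : {i | z i ≠ 0} ⊆ S := by
    intro i hi
    by_contra hcon
    exact hi (hz.2 i hcon)
  rw [onSet_onSet hsub, onSet_onSet (T := {i | 0 < z i}) (fun i (hi : 0 < z i) => hsub (ne_of_gt hi)),
    onSet_onSet (T := {i | z i < 0}) (fun i (hi : z i < 0) => hsub (ne_of_lt hi))]
  exact h z hz.1

omit [Fintype ι] in
theorem Pointed.onSet {U : Submodule ℝ (ι → ℝ)} (h : Pointed U) (S : Set ι) :
    Pointed (Pool.Agent.Helper141.onSet U S) := fun y hy => h y hy.1

/-- A vector of `U` of the largest support. -/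
theorem exists_full (U : Submodule ℝ (ι → ℝ)) :
    ∃ z ∈ U, ∀ i, z i = 0 → ∀ y ∈ U, y i = 0 := by
  classical
  have key : ∀ T : Finset ι, ∃ z ∈ U, ∀ i ∈ T, z i = 0 → ∀ y ∈ U, y i = 0 := by
    intro T
    induction T using Finset.induction_on with
    | empty => exact ⟨0, U.zero_mem, fun i hi => absurd hi (Finset.notMem_empty i)⟩
    | insert k T hk ih =>
      obtain ⟨z, hz, hz'⟩ := ih
      by_cases hk0 : z k = 0 → ∀ y ∈ U, y k = 0
      · refine ⟨z, hz, fun i hi => ?_⟩
        rcases Finset.mem_insert.1 hi with h | h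
        · subst h; exact hk0
        · exact hz' i h
      · push Not at hk0
        obtain ⟨hzk, y, hy, hyk⟩ := hk0
        obtain ⟨t, ht, hs⟩ := exists_small z y
        have hs' := hs t (le_of_eq (abs_of_pos ht))
        refine ⟨z + t • y, U.add_mem hz (U.smul_mem _ hy), fun i hi h0 => ?_⟩
        simp only [Pi.add_apply, Pi.smul_apply, smul_eq_mul] at h0
        rcases Finset.mem_insert.1 hi with h | h
        · subst h
          exfalso
          rw [hzk, zero_add] at h0
          exact hyk ((mul_eq_zero.1 h0).resolve_left ht.ne')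
        · apply hz' i h
          rcases lt_trichotomy (z i) 0 with h' | h' | h'
          · exact absurd h0 ((hs' i).2 h').ne
          · exact h'
          · exact absurd h0 ((hs' i).1 h').ne'
  obtain ⟨z, hz, hz'⟩ := key Finset.univ
  exact ⟨z, hz, fun i => hz' i (Finset.mem_univ i)⟩

/-- The three parts of a full vector: sum decomposition. -/
theorem decomp {U : Submodule ℝ (ι → ℝ)} (hP : Pointed U) {z : ι → ℝ} (hz : z ∈ U)
    (hz0 : z ≠ 0) :
    Module.finrank ℝ (onSet U {i | 0 < z i}) + Module.finrank ℝ (onSet U {i | z i < 0}) + 1 ≤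
      Module.finrank ℝ U ∧
    (Module.finrank ℝ U ≤ Module.finrank ℝ (onSet U {i | 0 < z i}) +
      Module.finrank ℝ (onSet U {i | z i < 0}) + 1 → ∀ w ∈ U, ∃ u ∈ onSet U {i | 0 < z i},
        ∃ v ∈ onSet U {i | z i < 0}, ∃ α : ℝ, w = u + v + α • z) := by
  set UA := onSet U {i | 0 < z i} with hUA
  set UB := onSet U {i | z i < 0} with hUB
  have hinf : UA ⊓ UB = ⊥ := by
    rw [eq_bot_iff]
    rintro y ⟨h1, h2⟩
    rw [Submodule.mem_bot]
    funext i
    by_cases h : 0 < z i
    · exact h2.2 i (fun h' : z i < 0 => absurd h (not_lt.2 h'.le))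
    · exact h1.2 i h
  have h1 := Submodule.finrank_sup_add_finrank_inf_eq UA UB
  rw [hinf, finrank_bot, add_zero] at h1
  have hnot : z ∉ UA ⊔ UB := by
    intro h
    obtain ⟨u, hu, v, hv, huv⟩ := Submodule.mem_sup.1 h
    have hu0 : u = 0 := by
      apply hP u hu.1
      intro i
      by_cases hi : 0 < z i
      · have h2 := congrFun huv i
        rw [Pi.add_apply, hv.2 i (fun h' : z i < 0 => absurd hi (not_lt.2 h'.le)), add_zero] at h2
        rw [h2]; exact hi.le
      · rw [hu.2 i hi]
    have hv0 : -v = 0 := by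
      apply hP (-v) (U.neg_mem hv.1)
      intro i
      by_cases hi : z i < 0
      · have h2 := congrFun huv i
        rw [Pi.add_apply, hu0, Pi.zero_apply, zero_add] at h2
        rw [Pi.neg_apply, h2]; linarith
      · rw [Pi.neg_apply, hv.2 i hi, neg_zero]
    apply hz0
    rw [← huv, hu0, neg_eq_zero.1 hv0, add_zero]
  have hinf2 : (UA ⊔ UB) ⊓ Submodule.span ℝ {z} = ⊥ := by
    rw [eq_bot_iff]
    rintro y ⟨h2, h3⟩
    rw [Submodule.mem_bot]
    obtain ⟨c, rfl⟩ := Submodule.mem_span_singleton.1 h3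
    by_cases hc : c = 0
    · rw [hc, zero_smul]
    · exfalso
      apply hnot
      have := (UA ⊔ UB).smul_mem c⁻¹ h2
      rwa [smul_smul, inv_mul_cancel₀ hc, one_smul] at this
  have h2 := Submodule.finrank_sup_add_finrank_inf_eq (UA ⊔ UB) (Submodule.span ℝ {z})
  rw [hinf2, finrank_bot, add_zero, finrank_span_singleton hz0, h1] at h2
  have hle : UA ⊔ UB ⊔ Submodule.span ℝ {z} ≤ U := by
    refine sup_le (sup_le onSet_le onSet_le) ?_
    rw [Submodule.span_singleton_le_iff_mem]
    exact hz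
  constructor
  · rw [← h2]
    exact Submodule.finrank_mono hle
  · intro h3 w hw
    have heq : UA ⊔ UB ⊔ Submodule.span ℝ {z} = U :=
      Submodule.eq_of_le_of_finrank_le hle (by rw [h2]; exact h3)
    rw [← heq] at hw
    obtain ⟨s, hs, t, ht, hst⟩ := Submodule.mem_sup.1 hw
    obtain ⟨u, hu, v, hv, huv⟩ := Submodule.mem_sup.1 hs
    obtain ⟨α, rfl⟩ := Submodule.mem_span_singleton.1 ht
    exact ⟨u, hu, v, hv, α, by rw [huv, hst]⟩

/-- If `V` has dimension `a` and `a + 1` disjoint nonnegative vectors with differences in `V`,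
then `V` consists of their combinations of coefficient sum `0`. -/
theorem span_of_hasT {V : Submodule ℝ (ι → ℝ)} {a : ℕ} (hV : Module.finrank ℝ V ≤ a)
    {f : Fin (a + 1) → ι → ℝ} (hne : ∀ j, f j ≠ 0)
    (hdisj : ∀ j j', j ≠ j' → ∀ i, f j i = 0 ∨ f j' i = 0) (hdiff : ∀ j j', f j - f j' ∈ V) :
    ∀ u ∈ V, ∃ c : Fin (a + 1) → ℝ, ∑ j, c j = 0 ∧ u = ∑ j, c j • f j := by
  classical
  let Φ : (Fin (a + 1) → ℝ) →ₗ[ℝ] (ι → ℝ) := Fintype.linearCombination ℝ f
  have hΦ : ∀ c, Φ c = ∑ j, c j • f j := fun c => Fintype.linearCombination_apply ℝ f c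
  have hinj : Function.Injective Φ := by
    rw [injective_iff_map_eq_zero]
    intro c hc
    funext j
    obtain ⟨i, hi⟩ : ∃ i, f j i ≠ 0 := by
      by_contra hcon
      push Not at hcon
      exact hne j (funext hcon)
    have h1 := congrFun hc i
    rw [hΦ, Finset.sum_apply, Pi.zero_apply, Finset.sum_eq_single j] at h1
    · rw [Pi.smul_apply, smul_eq_mul] at h1
      exact (mul_eq_zero.1 h1).resolve_right hi
    · intro k _ hk
      rw [Pi.smul_apply, (hdisj k j hk i).resolve_right hi, smul_zero]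
    · intro h; exact absurd (Finset.mem_univ j) h
  let σ : (Fin (a + 1) → ℝ) →ₗ[ℝ] ℝ := ∑ j, LinearMap.proj j
  have hσ : ∀ c, σ c = ∑ j, c j := fun c => by simp [σ]
  have hσsurj : LinearMap.range σ = ⊤ := by
    rw [LinearMap.range_eq_top]
    intro t
    exact ⟨Pi.single 0 t, by rw [hσ]; simp⟩
  have hker : Module.finrank ℝ (LinearMap.ker σ) = a := by
    have := LinearMap.finrank_range_add_finrank_ker σ
    rw [hσsurj, finrank_top, Module.finrank_self, Module.finrank_fintype_fun_eq_card,
      Fintype.card_fin] at this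
    omega
  have hle : (LinearMap.ker σ).map Φ ≤ V := by
    rintro _ ⟨c, hc, rfl⟩
    have hc' : ∑ j, c j = 0 := by rw [← hσ]; exact hc
    have : Φ c = ∑ j, c j • (f j - f 0) := by
      rw [hΦ]
      simp only [smul_sub, Finset.sum_sub_distrib]
      rw [← Finset.sum_smul, hc', zero_smul, sub_zero]
    rw [this]
    exact sum_mem fun j _ => V.smul_mem _ (hdiff j 0)
  have heq : (LinearMap.ker σ).map Φ = V := by
    apply Submodule.eq_of_le_of_finrank_le hle
    rw [← LinearEquiv.finrank_eq (Submodule.equivMapOfInjective Φ hinj (LinearMap.ker σ)), hker]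
    exact hV
  intro u hu
  rw [← heq] at hu
  obtain ⟨c, hc, rfl⟩ := hu
  exact ⟨c, by rw [← hσ]; exact hc, hΦ c⟩

omit [Fintype ι] in
theorem onSet_full {U : Submodule ℝ (ι → ℝ)} {z : ι → ℝ}
    (hfull : ∀ i, z i = 0 → ∀ y ∈ U, y i = 0) : onSet U {i | z i ≠ 0} = U := by
  apply le_antisymm onSet_le
  intro y hy
  refine ⟨hy, fun i hi => hfull i ?_ y hy⟩
  by_contra hcon
  exact hi hcon

/-- The positive side of a full vector of a thin space. -/
theorem side {U : Submodule ℝ (ι → ℝ)} (hP : Pointed U) (hT : Thin U) {z : ι → ℝ} (hz : z ∈ U)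
    (hfull : ∀ i, z i = 0 → ∀ y ∈ U, y i = 0) (hz0 : z ≠ 0) {a : ℕ}
    (ha : Module.finrank ℝ (onSet U {i | 0 < z i}) = a)
    (IH : 1 ≤ a → HasT (onSet U {i | 0 < z i}) (a + 1)) :
    ∃ F : Fin (a + 1) → ι → ℝ, (∀ j i, 0 ≤ F j i) ∧ (∀ j, F j ≠ 0) ∧
      (∀ j j', j ≠ j' → ∀ i, F j i = 0 ∨ F j' i = 0) ∧ (∀ j i, ¬ 0 < z i → F j i = 0) ∧
      ∀ j, (fun i => max (z i) 0) - F j ∈ U := by
  classical
  rcases Nat.eq_zero_or_pos a with h0 | hpos
  · subst h0
    refine ⟨fun _ i => max (z i) 0, fun _ i => le_max_right _ _, ?_, ?_, ?_, ?_⟩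
    · intro _ h
      apply hz0
      rw [← neg_eq_zero]
      apply hP (-z) (U.neg_mem hz)
      intro i
      have h1 : max (z i) 0 = 0 := congrFun h i
      have h2 := le_max_left (z i) 0
      rw [h1] at h2
      rw [Pi.neg_apply]; linarith
    · intro j j' hjj'
      exact absurd (Fin.ext (by omega)) hjj'
    · intro _ i hi
      exact max_eq_right (not_lt.1 hi)
    · intro _
      rw [sub_self]
      exact U.zero_mem
  obtain ⟨f, hf0, hfne, hfdisj, hfdiff⟩ := IH hpos
  set A : Set ι := {i | 0 < z i} with hA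
  set b := Module.finrank ℝ (onSet U {i | z i < 0}) with hb
  obtain ⟨hlow, hdec⟩ := decomp hP hz hz0
  have hupp := hT z hz
  rw [onSet_full hfull] at hupp
  have hdec' := hdec hupp
  rw [← hA, ha, ← hb] at hlow hupp
  -- two indices
  have hother : ∀ j : Fin (a + 1), ∃ k, k ≠ j := by
    intro j
    have : Nontrivial (Fin (a + 1)) := Fin.nontrivial_iff_two_le.2 (by omega)
    exact exists_ne j
  have hsupp : ∀ j i, i ∉ A → f j i = 0 := by
    intro j i hi
    obtain ⟨k, hk⟩ := hother j
    have h1 := (hfdiff j k).2 i hi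
    rw [Pi.sub_apply] at h1
    rcases hfdisj j k hk.symm i with h | h
    · exact h
    · rw [h, sub_zero] at h1
      exact h1
  have hspan := span_of_hasT (V := onSet U A) ha.le hfne hfdisj hfdiff
  have hcomb : ∀ (c : Fin (a + 1) → ℝ) (k : Fin (a + 1)) (i : ι), f k i ≠ 0 →
      (∑ l, c l • f l) i = c k * f k i := by
    intro c k i hki
    rw [Finset.sum_apply, Finset.sum_eq_single k]
    · rfl
    · intro l _ hl
      rw [Pi.smul_apply, (hfdisj l k hl i).resolve_right hki, smul_zero]
    · intro h; exact absurd (Finset.mem_univ k) h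
  have hpt : ∀ k, ∃ i, f k i ≠ 0 := by
    intro k
    by_contra hcon
    push Not at hcon
    exact hfne k (funext hcon)
  -- the key claim
  have hC : ∀ j : Fin (a + 1), ∃ α : ℝ, α ≠ 0 ∧ ∃ c : Fin (a + 1) → ℝ, ∀ i, 0 < z i → f j i = 0 →
      (∑ l, c l • f l) i + α * z i = 0 := by
    intro j
    obtain ⟨ε, hε, hsmall⟩ := exists_small ((a : ℝ) • f j) z
    have hs := hsmall (-ε) (by rw [abs_neg]; exact le_of_eq (abs_of_pos hε))
    have hapos : (0 : ℝ) < a := by exact_mod_cast hpos
    set y : ι → ℝ := ε • z - ∑ k, (f j - f k) with hy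
    have hyU : y ∈ U := U.sub_mem (U.smul_mem _ hz) (sum_mem fun k _ => (hfdiff j k).1)
    have hyi : ∀ i, y i = ε * z i - ((a + 1 : ℝ) * f j i - ∑ k, f k i) := by
      intro i
      have h1 : (∑ k : Fin (a + 1), (f j - f k)) i = (a + 1 : ℝ) * f j i - ∑ k, f k i := by
        rw [Finset.sum_apply]
        simp only [Pi.sub_apply]
        rw [Finset.sum_sub_distrib, Finset.sum_const, Finset.card_univ, Fintype.card_fin,
          nsmul_eq_mul]
        push_cast
        ring
      rw [hy, Pi.sub_apply, h1, Pi.smul_apply, smul_eq_mul]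
    have hsum : ∀ i, f j i ≠ 0 → ∑ k, f k i = f j i := by
      intro i hi
      apply Finset.sum_eq_single j
      · intro l _ hl
        exact (hfdisj l j hl i).resolve_right hi
      · intro h; exact absurd (Finset.mem_univ j) h
    have hy1 : ∀ i, 0 < z i → f j i = 0 → 0 < y i := by
      intro i h1 h2
      rw [hyi, h2]
      have h3 : 0 ≤ ∑ k, f k i := Finset.sum_nonneg fun k _ => hf0 k i
      have h4 := mul_pos hε h1
      linarith
    have hy2 : ∀ i, f j i ≠ 0 → y i < 0 := by
      intro i h2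
      rw [hyi, hsum i h2]
      have h3 : 0 < f j i := lt_of_le_of_ne (hf0 j i) (Ne.symm h2)
      have h4 := (hs i).1 (by rw [Pi.smul_apply, smul_eq_mul]; exact mul_pos hapos h3)
      rw [Pi.smul_apply, smul_eq_mul] at h4
      linarith
    have hy3 : ∀ i, ¬ 0 < z i → y i = ε * z i := by
      intro i hi
      rw [hyi, hsupp j i hi, Finset.sum_eq_zero fun k _ => hsupp k i hi]
      ring
    have hfully : ∀ i, y i = 0 → ∀ w ∈ U, w i = 0 := by
      intro i hi
      apply hfull i
      by_cases hzi : 0 < z i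
      · exfalso
        by_cases hfi : f j i = 0
        · exact (hy1 i hzi hfi).ne' hi
        · exact (hy2 i hfi).ne hi
      · rw [hy3 i hzi] at hi
        exact (mul_eq_zero.1 hi).resolve_left hε.ne'
    have hTy := hT y hyU
    rw [onSet_full hfully] at hTy
    have hypos : ∀ i, 0 < y i → 0 < z i ∧ f j i = 0 := by
      intro i hi
      by_cases hzi : 0 < z i
      · refine ⟨hzi, ?_⟩
        by_contra hcon
        exact absurd hi (not_lt.2 (hy2 i hcon).le)
      · exfalso
        rw [hy3 i hzi] at hi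
        exact hzi ((mul_pos_iff_of_pos_left hε).1 hi)
    have hlt : onSet U {i | 0 < y i} < onSet U A := by
      refine lt_of_le_of_ne (onSet_mono fun i (hi : 0 < y i) => (hypos i hi).1) ?_
      intro heq
      obtain ⟨k, hk⟩ := hother j
      have h1 : f j - f k ∈ onSet U {i | 0 < y i} := by rw [heq]; exact hfdiff j k
      obtain ⟨i, hi⟩ := hpt j
      have h2 := h1.2 i (fun h : 0 < y i => hi (hypos i h).2)
      rw [Pi.sub_apply, (hfdisj j k hk.symm i).resolve_left hi, sub_zero] at h2
      exact hi h2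
    have hlt' := Submodule.finrank_lt_finrank_of_lt hlt
    rw [ha] at hlt'
    have hgt : ¬ onSet U {i | y i < 0} ≤ onSet U {i | z i < 0} := by
      intro hle
      have := Submodule.finrank_mono hle
      rw [← hb] at this
      omega
    obtain ⟨w, hw, hwB⟩ := SetLike.not_le_iff_exists.1 hgt
    obtain ⟨u, hu, v, hv, α, hwuv⟩ := hdec' w hw.1
    obtain ⟨c, hc0, rfl⟩ := hspan u hu
    have hrel : ∀ i, 0 < z i → f j i = 0 → (∑ l, c l • f l) i + α * z i = 0 := by
      intro i h1 h2
      have h3 := hw.2 i (fun h : y i < 0 => absurd (hy1 i h1 h2) (not_lt.2 h.le))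
      have h4 := congrFun hwuv i
      rw [Pi.add_apply, Pi.add_apply, Pi.smul_apply, smul_eq_mul, h3,
        hv.2 i (fun h : z i < 0 => absurd h1 (not_lt.2 h.le))] at h4
      linarith
    refine ⟨α, ?_, c, hrel⟩
    intro hα
    apply hwB
    have hck : ∀ k, k ≠ j → c k = 0 := by
      intro k hk
      obtain ⟨i, hi⟩ := hpt k
      have h1 : 0 < z i := by
        by_contra hcon
        exact hi (hsupp k i hcon)
      have h2 := hrel i h1 ((hfdisj k j hk i).resolve_left hi)
      rw [hcomb c k i hi, hα, zero_mul, add_zero] at h2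
      exact (mul_eq_zero.1 h2).resolve_right hi
    have hcj : c j = 0 := by
      rw [Finset.sum_eq_single j (fun k _ hk => hck k hk)
        (fun h => absurd (Finset.mem_univ j) h)] at hc0
      exact hc0
    have hc : ∀ k, c k = 0 := by
      intro k
      by_cases hk : k = j
      · rw [hk]; exact hcj
      · exact hck k hk
    have h5 : w = v := by
      rw [hwuv, hα, zero_smul, add_zero, Finset.sum_eq_zero (fun k _ => by rw [hc k, zero_smul]),
        zero_add]
    rw [h5]
    exact hv
  -- every point of `A` is in some support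
  have hcov : ∀ i, 0 < z i → ∃ k, f k i ≠ 0 := by
    intro i hi
    by_contra hcon
    push Not at hcon
    obtain ⟨α, hα, c, hc⟩ := hC 0
    have h1 := hc i hi (hcon 0)
    rw [Finset.sum_apply, Finset.sum_eq_zero (fun k _ => by
      rw [Pi.smul_apply, hcon k, smul_zero]), zero_add] at h1
    exact hα ((mul_eq_zero.1 h1).resolve_right hi.ne')
  have hγ : ∀ k, ∃ γ : ℝ, 0 < γ ∧ ∀ i, f k i ≠ 0 → z i = γ * f k i := by
    intro k
    obtain ⟨j, hj⟩ := hother k
    obtain ⟨α, hα, c, hc⟩ := hC j
    have h1 : ∀ i, f k i ≠ 0 → z i = -(c k / α) * f k i := by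
      intro i hi
      have h1 : 0 < z i := by
        by_contra hcon
        exact hi (hsupp k i hcon)
      have h2 := hc i h1 ((hfdisj k j hj.symm i).resolve_left hi)
      rw [hcomb c k i hi] at h2
      field_simp
      linarith
    refine ⟨-(c k / α), ?_, h1⟩
    obtain ⟨i, hi⟩ := hpt k
    have h2 : 0 < f k i := lt_of_le_of_ne (hf0 k i) (Ne.symm hi)
    have h3 : 0 < z i := by
      by_contra hcon
      exact hi (hsupp k i hcon)
    rw [h1 i hi] at h3
    exact (pos_iff_pos_of_mul_pos h3).2 h2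
  choose γ hγpos hγeq using hγ
  have hzp : (fun i => max (z i) 0) = ∑ k, γ k • f k := by
    funext i
    by_cases hi : 0 < z i
    · obtain ⟨k, hk⟩ := hcov i hi
      rw [hcomb γ k i hk, ← hγeq k i hk]
      exact max_eq_left hi.le
    · rw [Finset.sum_apply, Finset.sum_eq_zero (fun k _ => by
        rw [Pi.smul_apply, hsupp k i hi, smul_zero])]
      exact max_eq_right (not_lt.1 hi)
  have hΓ : 0 < ∑ k, γ k := Finset.sum_pos (fun k _ => hγpos k) Finset.univ_nonempty
  refine ⟨fun j => (∑ k, γ k) • f j, ?_, ?_, ?_, ?_, ?_⟩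
  · intro j i
    exact mul_nonneg hΓ.le (hf0 j i)
  · intro j h
    exact hfne j ((smul_eq_zero.1 h).resolve_left hΓ.ne')
  · intro j j' hjj' i
    rcases hfdisj j j' hjj' i with h | h
    · left
      show (∑ k, γ k) * f j i = 0
      rw [h, mul_zero]
    · right
      show (∑ k, γ k) * f j' i = 0
      rw [h, mul_zero]
  · intro j i hi
    show (∑ k, γ k) * f j i = 0
    rw [hsupp j i hi, mul_zero]
  · intro j
    have : (fun i => max (z i) 0) - (∑ k, γ k) • f j = ∑ k, γ k • (f k - f j) := by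
      rw [hzp]
      simp only [smul_sub, Finset.sum_sub_distrib, Finset.sum_smul]
    rw [this]
    exact sum_mem fun k _ => U.smul_mem _ (hfdiff k j).1

omit [Fintype ι] in
theorem Thin.neg_sets (z : ι → ℝ) :
    {i | 0 < (-z) i} = {i | z i < 0} ∧ {i | (-z) i < 0} = {i | 0 < z i} := by
  constructor
  · ext i; simp
  · ext i; simp

/-- A thin space of dimension `m ≥ 1` has `m + 1` disjoint nonnegative vectors with differences
in it. -/
theorem hasT_of_thin (m : ℕ) : ∀ U : Submodule ℝ (ι → ℝ), Pointed U → Thin U →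
    Module.finrank ℝ U = m → 1 ≤ m → HasT U (m + 1) := by
  classical
  induction m using Nat.strong_induction_on with
  | _ m ih =>
    intro U hP hT hm hm1
    obtain ⟨z, hz, hfull⟩ := exists_full U
    have hz0 : z ≠ 0 := by
      rintro rfl
      have : U = ⊥ := by
        rw [eq_bot_iff]
        intro y hy
        rw [Submodule.mem_bot]
        funext i
        exact hfull i rfl y hy
      rw [this, finrank_bot] at hm
      omega
    obtain ⟨hlow, -⟩ := decomp hP hz hz0
    have hupp := hT z hz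
    rw [onSet_full hfull] at hupp
    obtain ⟨a, ha⟩ : ∃ a, Module.finrank ℝ (onSet U {i | 0 < z i}) = a := ⟨_, rfl⟩
    obtain ⟨b, hb⟩ : ∃ b, Module.finrank ℝ (onSet U {i | z i < 0}) = b := ⟨_, rfl⟩
    rw [ha, hb, hm] at hlow hupp
    have hm' : m = a + b + 1 := by omega
    obtain ⟨F, hF0, hFne, hFd, hFs, hFz⟩ := side hP hT hz hfull hz0 ha (fun h1 =>
      ih a (by omega) _ (hP.onSet _) (hT.onSet _) ha h1)
    have hns := Thin.neg_sets z
    obtain ⟨G, hG0, hGne, hGd, hGs, hGz⟩ := side hP hT (U.neg_mem hz) (z := -z)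
      (fun i hi => hfull i (by rwa [Pi.neg_apply, neg_eq_zero] at hi)) (neg_ne_zero.2 hz0)
      (a := b) (by rw [hns.1]; exact hb) (fun h1 => by
        rw [hns.1]
        exact ih b (by omega) _ (hP.onSet _) (hT.onSet _) hb h1)
    have hFG : ∀ j k i, F j i = 0 ∨ G k i = 0 := by
      intro j k i
      by_cases hi : 0 < z i
      · right
        exact hGs k i (by rw [Pi.neg_apply]; intro h; linarith)
      · left
        exact hFs j i hi
    have hFGU : ∀ j k, F j - G k ∈ U := by
      intro j k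
      have h1 := U.sub_mem (U.sub_mem hz (hFz j)) (U.neg_mem (hGz k))
      have h2 : z - ((fun i => max (z i) 0) - F j) - -((fun i => max ((-z) i) 0) - G k) =
          F j - G k := by
        funext i
        simp only [Pi.sub_apply, Pi.neg_apply]
        rcases le_total 0 (z i) with h | h
        · rw [max_eq_left h, max_eq_right (by linarith : -z i ≤ 0)]; ring
        · rw [max_eq_right h, max_eq_left (by linarith : 0 ≤ -z i)]; ring
      rwa [h2] at h1
    let H : Fin (a + 1) ⊕ Fin (b + 1) → ι → ℝ := Sum.elim F G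
    have hH0 : ∀ s i, 0 ≤ H s i := by
      rintro (j | k) i
      · exact hF0 j i
      · exact hG0 k i
    have hHne : ∀ s, H s ≠ 0 := by
      rintro (j | k)
      · exact hFne j
      · exact hGne k
    have hHd : ∀ s s', s ≠ s' → ∀ i, H s i = 0 ∨ H s' i = 0 := by
      rintro (j | k) (j' | k') hss' i
      · exact hFd j j' (fun h => hss' (by rw [h])) i
      · exact hFG j k' i
      · exact (hFG j' k i).symm
      · exact hGd k k' (fun h => hss' (by rw [h])) i
    have hHU : ∀ s s', H s - H s' ∈ U := by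
      rintro (j | k) (j' | k')
      · have := U.sub_mem (hFz j') (hFz j)
        rwa [sub_sub_sub_cancel_left] at this
      · exact hFGU j k'
      · have := U.neg_mem (hFGU j' k)
        rwa [neg_sub] at this
      · have := U.sub_mem (hGz k') (hGz k)
        rwa [sub_sub_sub_cancel_left] at this
    have hcard : m + 1 = (a + 1) + (b + 1) := by omega
    rw [hcard]
    refine ⟨fun j => H (finSumFinEquiv.symm j), fun j i => hH0 _ i, fun j => hHne _, ?_, ?_⟩
    · intro j j' hjj' i
      exact hHd _ _ (fun h => hjj' (finSumFinEquiv.symm.injective h)) i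
    · intro j j'
      exact hHU _ _

end Pool.Agent.Helper141
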