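import Mathlib
import Pool.Agent.Helper141_tverberg.Defs
import Pool.Agent.Helper141_tverberg.Thin

set_option autoImplicit false

namespace Pool.Agent.Helper141

variable {E : Type*} [AddCommGroup E] [Module ℝ E]

/-- The affine dependences of the points of `X`. -/
def dep (X : Finset E) : Submodule ℝ ({x // x ∈ X} → ℝ) where
  carrier := {y | ∑ i, y i = 0 ∧ ∑ i, y i • i.1 = 0}
  add_mem' := by
    rintro a b ⟨h1, h2⟩ ⟨h3, h4⟩
    refine ⟨?_, ?_⟩
    · simp only [Pi.add_apply, Finset.sum_add_distrib, h1, h3, add_zero]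
    · simp only [Pi.add_apply, add_smul, Finset.sum_add_distrib, h2, h4, add_zero]
  zero_mem' := by simp
  smul_mem' := by
    rintro c a ⟨h1, h2⟩
    refine ⟨?_, ?_⟩
    · simp only [Pi.smul_apply, smul_eq_mul, ← Finset.mul_sum, h1, mul_zero]
    · simp only [Pi.smul_apply, smul_eq_mul, mul_smul, ← Finset.smul_sum, h2, smul_zero]

theorem mem_dep {X : Finset E} {y : {x // x ∈ X} → ℝ} :
    y ∈ dep X ↔ ∑ i, y i = 0 ∧ ∑ i, y i • i.1 = 0 := Iff.rfl

theorem pointed_dep (X : Finset E) : Pointed (dep X) := by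
  intro y hy h0
  funext i
  exact (Finset.sum_eq_zero_iff_of_nonneg (fun i _ => h0 i)).1 hy.1 i (Finset.mem_univ i)

theorem finrank_dep {X : Finset E} (hX : X.Nonempty) :
    Module.finrank ℝ (dep X) + Module.finrank ℝ (vectorSpan ℝ (X : Set E)) + 1 = X.card := by
  classical
  obtain ⟨p, hp⟩ := hX
  let σ : ({x // x ∈ X} → ℝ) →ₗ[ℝ] ℝ := ∑ j, LinearMap.proj j
  have hσ : ∀ c, σ c = ∑ j, c j := fun c => by simp [σ]
  have hσsurj : LinearMap.range σ = ⊤ := by
    rw [LinearMap.range_eq_top]
    intro t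
    exact ⟨Pi.single ⟨p, hp⟩ t, by rw [hσ]; simp⟩
  have h1 := LinearMap.finrank_range_add_finrank_ker σ
  rw [hσsurj, finrank_top, Module.finrank_self, Module.finrank_fintype_fun_eq_card,
    Fintype.card_coe] at h1
  let T : LinearMap.ker σ →ₗ[ℝ] E :=
    (Fintype.linearCombination ℝ (fun i : {x // x ∈ X} => i.1)) ∘ₗ (LinearMap.ker σ).subtype
  have hT : ∀ c, T c = ∑ j, c.1 j • j.1 := fun c => Fintype.linearCombination_apply ℝ _ _
  have hrange : LinearMap.range T = vectorSpan ℝ (X : Set E) := by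
    apply le_antisymm
    · rintro _ ⟨c, rfl⟩
      rw [hT]
      have hc : ∑ j, c.1 j = 0 := by rw [← hσ]; exact c.2
      have : ∑ j, c.1 j • (j.1 : E) = ∑ j, c.1 j • (j.1 - p) := by
        simp only [smul_sub, Finset.sum_sub_distrib]
        rw [← Finset.sum_smul, hc, zero_smul, sub_zero]
      rw [this]
      refine sum_mem fun j _ => Submodule.smul_mem _ _ ?_
      exact vsub_mem_vectorSpan ℝ j.2 hp
    · rw [vectorSpan_eq_span_vsub_set_right ℝ (Finset.mem_coe.2 hp), Submodule.span_le]
      rintro _ ⟨x, hx, rfl⟩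
      have hx' : x ∈ X := hx
      refine ⟨⟨Pi.single ⟨x, hx'⟩ 1 - Pi.single ⟨p, hp⟩ 1, ?_⟩, ?_⟩
      · rw [LinearMap.mem_ker, hσ]
        simp
      · rw [hT]
        simp only [Pi.sub_apply, sub_smul, Finset.sum_sub_distrib, Pi.single_apply, ite_smul,
          one_smul, zero_smul, Finset.sum_ite_eq', Finset.mem_univ, if_true]
        rfl
  have hker : (LinearMap.ker T).map (LinearMap.ker σ).subtype = dep X := by
    ext y
    constructor
    · rintro ⟨c, hc, rfl⟩
      have hc' : T c = 0 := hc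
      exact ⟨by rw [← hσ]; exact c.2, by rw [hT] at hc'; exact hc'⟩
    · rintro ⟨h2, h3⟩
      exact ⟨⟨y, by rw [LinearMap.mem_ker, hσ]; exact h2⟩, by
        show T _ = 0
        rw [hT]; exact h3, rfl⟩
  have h2 := LinearMap.finrank_range_add_finrank_ker T
  rw [hrange] at h2
  have h3 : Module.finrank ℝ (dep X) = Module.finrank ℝ (LinearMap.ker T) := by
    rw [← hker]
    exact (LinearEquiv.finrank_eq (Submodule.equivMapOfInjective (LinearMap.ker σ).subtype
      (Submodule.injective_subtype _) (LinearMap.ker T))).symm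
  omega

theorem sum_mem_hull {κ : Type*} [Fintype κ] {S : Set E} {w : κ → ℝ} {p : κ → E}
    (h0 : ∀ i, 0 ≤ w i) (h1 : ∑ i, w i = 1) (hS : ∀ i, w i ≠ 0 → p i ∈ S) :
    ∑ i, w i • p i ∈ convexHull ℝ S := by
  classical
  have h2 : ∑ i, w i • p i = ∑ i ∈ Finset.univ.filter (fun i => w i ≠ 0), w i • p i := by
    rw [Finset.sum_filter]
    refine Finset.sum_congr rfl fun i _ => ?_
    by_cases h : w i = 0
    · simp [h]
    · simp [h]
  rw [h2]
  apply (convex_convexHull ℝ S).sum_mem (fun i _ => h0 i)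
  · rw [← h1]
    exact Finset.sum_filter_ne_zero _
  · intro i hi
    exact subset_convexHull ℝ _ (hS i (Finset.mem_filter.1 hi).2)

/-- The Radon point of a dependence. -/
theorem radon_mem_cell {X : Finset E} {z : {x // x ∈ X} → ℝ} (hz : z ∈ dep X)
    {s : ℝ} (hs : 0 < s) (hs' : ∑ i, max (z i) 0 = s) (c : E → Fin 2)
    (hc0 : ∀ i, 0 < z i → c i.1 = 0) (hc1 : ∀ i, z i < 0 → c i.1 = 1) :
    ∑ i, (max (z i) 0 / s) • i.1 ∈ cell X c := by
  classical
  have hz2 : ∀ i, z i = max (z i) 0 - max (-z i) 0 := by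
    intro i
    rcases le_total 0 (z i) with h | h
    · rw [max_eq_left h, max_eq_right (by linarith)]; ring
    · rw [max_eq_right h, max_eq_left (by linarith)]; ring
  have hsum : ∑ i, max (-z i) 0 = s := by
    have h1 := hz.1
    rw [Finset.sum_congr rfl fun i _ => hz2 i, Finset.sum_sub_distrib, hs'] at h1
    linarith
  have hpt : ∑ i, (max (z i) 0 / s) • i.1 = ∑ i, (max (-z i) 0 / s) • i.1 := by
    have h1 := hz.2
    rw [Finset.sum_congr rfl fun i _ => by rw [hz2 i]] at h1
    simp only [sub_smul, Finset.sum_sub_distrib] at h1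
    rw [sub_eq_zero] at h1
    have h2 : ∀ g : {x // x ∈ X} → ℝ, ∑ i, (g i / s) • i.1 = s⁻¹ • ∑ i, g i • i.1 := by
      intro g
      rw [Finset.smul_sum]
      refine Finset.sum_congr rfl fun i _ => ?_
      rw [smul_smul, div_eq_inv_mul]
    rw [h2, h2, h1]
  rw [cell, Set.mem_iInter]
  intro j
  fin_cases j
  · apply sum_mem_hull
    · intro i
      exact div_nonneg (le_max_right _ _) hs.le
    · rw [← Finset.sum_div, hs', div_self hs.ne']
    · intro i hi
      refine ⟨i.2, hc0 i ?_⟩
      by_contra hcon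
      apply hi
      rw [max_eq_right (not_lt.1 hcon), zero_div]
  · rw [hpt]
    apply sum_mem_hull
    · intro i
      exact div_nonneg (le_max_right _ _) hs.le
    · rw [← Finset.sum_div, hsum, div_self hs.ne']
    · intro i hi
      refine ⟨i.2, hc1 i ?_⟩
      by_contra hcon
      apply hi
      rw [max_eq_right (by linarith), zero_div]

section Fin

variable [FiniteDimensional ℝ E]

theorem finrank_le_tdim_one (X : Finset E) (hX : X.Nonempty) :
    (Module.finrank ℝ (vectorSpan ℝ (X : Set E)) : ℤ) ≤ tdim X 1 := by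
  refine le_trans ?_ (pdim_le_tdim X (fun _ => (0 : Fin 1)))
  have hcell : (X : Set E) ⊆ cell X (fun _ => (0 : Fin 1)) := by
    intro x hx
    rw [cell, Set.mem_iInter]
    intro i
    exact subset_convexHull ℝ _ ⟨hx, (Subsingleton.elim _ _)⟩
  obtain ⟨p, hp⟩ := hX
  unfold pdim
  rw [if_pos ⟨p, hcell hp⟩]
  exact_mod_cast Submodule.finrank_mono (vectorSpan_mono ℝ hcell)

omit [FiniteDimensional ℝ E] in
theorem zero_le_tdim_of_hasT {X : Finset E} {k : ℕ} (hk : 1 ≤ k) (h : HasT (dep X) k) :
    ∃ c : E → Fin k, (cell X c).Nonempty := by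
  classical
  obtain ⟨f, hf0, hfne, hfd, hfU⟩ := h
  let j₀ : Fin k := ⟨0, hk⟩
  set s := ∑ i, f j₀ i with hs
  have hsj : ∀ j, ∑ i, f j i = s := by
    intro j
    have h1 := (hfU j j₀).1
    simp only [Pi.sub_apply, Finset.sum_sub_distrib] at h1
    linarith
  have hspos : 0 < s := by
    rcases (Finset.sum_nonneg fun i _ => hf0 j₀ i).lt_or_eq with h | h
    · exact h
    · exfalso
      apply hfne j₀
      funext i
      exact (Finset.sum_eq_zero_iff_of_nonneg (fun i _ => hf0 j₀ i)).1 h.symm i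
        (Finset.mem_univ i)
  have hdiv : ∀ g : {x // x ∈ X} → ℝ, ∑ i, (g i / s) • i.1 = s⁻¹ • ∑ i, g i • i.1 := by
    intro g
    rw [Finset.smul_sum]
    refine Finset.sum_congr rfl fun i _ => ?_
    rw [smul_smul, div_eq_inv_mul]
  have hq : ∀ j, ∑ i, (f j i / s) • i.1 = ∑ i, (f j₀ i / s) • i.1 := by
    intro j
    have h1 := (hfU j j₀).2
    simp only [Pi.sub_apply, sub_smul, Finset.sum_sub_distrib] at h1
    rw [hdiv, hdiv, sub_eq_zero.1 h1]
  let c : E → Fin k := fun x =>
    if hx : ∃ (hx : x ∈ X) (j : Fin k), f j ⟨x, hx⟩ ≠ 0 then hx.choose_spec.choose else j₀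
  have hc : ∀ j (i : {x // x ∈ X}), f j i ≠ 0 → c i.1 = j := by
    intro j i hi
    have hx : ∃ (hx : i.1 ∈ X) (j : Fin k), f j ⟨i.1, hx⟩ ≠ 0 := ⟨i.2, j, hi⟩
    have h1 : c i.1 = hx.choose_spec.choose := dif_pos hx
    have h2 := hx.choose_spec.choose_spec
    rw [← h1] at h2
    by_contra hne
    rcases hfd (c i.1) j hne i with h | h
    · exact h2 h
    · exact hi h
  refine ⟨c, ∑ i, (f j₀ i / s) • i.1, ?_⟩
  rw [cell, Set.mem_iInter]
  intro j
  rw [← hq j]
  apply sum_mem_hull
  · intro i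
    exact div_nonneg (hf0 j i) hspos.le
  · rw [← Finset.sum_div, hsj, div_self hspos.ne']
  · intro i hi
    refine ⟨i.2, hc j i ?_⟩
    intro h
    apply hi
    rw [h, zero_div]

/-- The dimension of a Radon cell. -/
theorem finrank_onSet_le (X : Finset E) {z : {x // x ∈ X} → ℝ} (hz : z ∈ dep X) :
    (Module.finrank ℝ (onSet (dep X) {i | z i ≠ 0}) : ℤ) ≤
      Module.finrank ℝ (onSet (dep X) {i | 0 < z i}) +
        Module.finrank ℝ (onSet (dep X) {i | z i < 0}) + 1 + tdim X 2 := by
  classical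
  by_cases hz0 : z = 0
  · have h1 : onSet (dep X) {i | z i ≠ 0} = ⊥ := by
      rw [eq_bot_iff]
      intro y hy
      rw [Submodule.mem_bot]
      funext i
      exact hy.2 i (fun h : z i ≠ 0 => h (by rw [hz0]; rfl))
    have h2 := neg_one_le_tdim X (r := 2) (by norm_num)
    rw [h1, finrank_bot]
    push_cast
    omega
  set s := ∑ i, max (z i) 0 with hs
  have hspos : 0 < s := by
    rcases (Finset.sum_nonneg fun i (_ : i ∈ Finset.univ) => le_max_right (z i) 0).lt_or_eq with
      h | h
    · exact h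
    · exfalso
      apply hz0
      have h1 : ∀ i, max (z i) 0 = 0 := fun i =>
        (Finset.sum_eq_zero_iff_of_nonneg (fun i _ => le_max_right (z i) 0)).1 h.symm i
          (Finset.mem_univ i)
      rw [← neg_eq_zero]
      apply pointed_dep X (-z) ((dep X).neg_mem hz)
      intro i
      have h2 := le_max_left (z i) 0
      rw [h1 i] at h2
      rw [Pi.neg_apply]; linarith
  let c : E → Fin 2 := fun x => if hx : ∃ hx : x ∈ X, 0 < z ⟨x, hx⟩ then 0 else 1
  have hc0 : ∀ i : {x // x ∈ X}, 0 < z i → c i.1 = 0 := by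
    intro i hi
    exact dif_pos ⟨i.2, hi⟩
  have hc1 : ∀ i : {x // x ∈ X}, z i < 0 → c i.1 = 1 := by
    intro i hi
    refine dif_neg ?_
    rintro ⟨h1, h2⟩
    exact absurd h2 (not_lt.2 hi.le)
  set V := onSet (dep X) {i | z i ≠ 0} with hV
  -- the linear maps
  let φ₁ : V →ₗ[ℝ] ℝ :=
    (∑ i : {x // x ∈ X}, (if 0 < z i then (1 : ℝ) else 0) • LinearMap.proj i) ∘ₗ V.subtype
  have hφ₁ : ∀ y, φ₁ y = ∑ i, if 0 < z i then y.1 i else 0 := by
    intro y
    simp only [φ₁, LinearMap.comp_apply, LinearMap.sum_apply, LinearMap.smul_apply,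
      LinearMap.proj_apply, Submodule.subtype_apply, smul_eq_mul, ite_mul, one_mul, zero_mul]
  let φ₂ : LinearMap.ker φ₁ →ₗ[ℝ] E :=
    (∑ i : {x // x ∈ X}, LinearMap.toSpanSingleton ℝ E (if 0 < z i then i.1 else 0) ∘ₗ
      LinearMap.proj i) ∘ₗ V.subtype ∘ₗ (LinearMap.ker φ₁).subtype
  have hφ₂ : ∀ y, φ₂ y = ∑ i, (if 0 < z i then y.1.1 i else 0) • i.1 := by
    intro y
    simp only [φ₂, LinearMap.comp_apply, LinearMap.sum_apply,
      LinearMap.proj_apply, Submodule.subtype_apply, LinearMap.toSpanSingleton_apply]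
    refine Finset.sum_congr rfl fun i _ => ?_
    split_ifs <;> simp
  have hr1 := LinearMap.finrank_range_add_finrank_ker φ₁
  have hr1' : Module.finrank ℝ (LinearMap.range φ₁) ≤ 1 := by
    have := Submodule.finrank_le (LinearMap.range φ₁)
    rwa [Module.finrank_self] at this
  have hr2 := LinearMap.finrank_range_add_finrank_ker (K := ℝ) (V := LinearMap.ker φ₁) φ₂
  -- the kernel of φ₂
  have hpart : ∀ y ∈ LinearMap.ker φ₂, (fun i => if 0 < z i then y.1.1 i else 0) ∈
      onSet (dep X) {i | 0 < z i} ∧ (fun i => if z i < 0 then y.1.1 i else 0) ∈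
      onSet (dep X) {i | z i < 0} := by
    intro y hy
    have h1 : ∑ i, (if 0 < z i then y.1.1 i else 0) = 0 := by
      rw [← hφ₁]; exact y.2
    have h2 : ∑ i : {x // x ∈ X}, (if 0 < z i then y.1.1 i else 0) • i.1 = 0 := by
      rw [← hφ₂]; exact hy
    have h3 : (fun i => if 0 < z i then y.1.1 i else 0) ∈ dep X := ⟨h1, h2⟩
    have h4 : (fun i => if z i < 0 then y.1.1 i else 0) =
        y.1.1 - (fun i => if 0 < z i then y.1.1 i else 0) := by
      funext i
      simp only [Pi.sub_apply]
      rcases lt_trichotomy (z i) 0 with h | h | h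
      · rw [if_pos h, if_neg (not_lt.2 h.le), sub_zero]
      · rw [if_neg (by rw [h]; exact lt_irrefl _), if_neg (by rw [h]; exact lt_irrefl _),
          y.1.2.2 i (fun h' => h' h), sub_zero]
      · rw [if_neg (not_lt.2 h.le), if_pos h, sub_self]
    refine ⟨⟨h3, fun i hi => if_neg hi⟩, ⟨?_, fun i hi => if_neg hi⟩⟩
    rw [h4]
    exact (dep X).sub_mem y.1.2.1 h3
  let G : LinearMap.ker φ₂ →ₗ[ℝ]
      (onSet (dep X) {i | 0 < z i} × onSet (dep X) {i | z i < 0}) :=
    { toFun := fun y => (⟨_, (hpart y.1 y.2).1⟩, ⟨_, (hpart y.1 y.2).2⟩)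
      map_add' := by
        intro a b
        apply Prod.ext
        · apply Subtype.ext
          funext i
          by_cases h : 0 < z i <;> simp [h]
        · apply Subtype.ext
          funext i
          by_cases h : z i < 0 <;> simp [h]
      map_smul' := by
        intro t a
        apply Prod.ext
        · apply Subtype.ext
          funext i
          by_cases h : 0 < z i <;> simp [h]
        · apply Subtype.ext
          funext i
          by_cases h : z i < 0 <;> simp [h] }
  have hG : Function.Injective G := by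
    intro y y' hy
    have h1 : (fun i => if 0 < z i then y.1.1.1 i else 0) =
        (fun i => if 0 < z i then y'.1.1.1 i else 0) :=
      congrArg Subtype.val (congrArg Prod.fst hy)
    have h2 : (fun i => if z i < 0 then y.1.1.1 i else 0) =
        (fun i => if z i < 0 then y'.1.1.1 i else 0) :=
      congrArg Subtype.val (congrArg Prod.snd hy)
    apply Subtype.ext
    apply Subtype.ext
    apply Subtype.ext
    funext i
    rcases lt_trichotomy (z i) 0 with h | h | h
    · have := congrFun h2 i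
      simpa [h] using this
    · exact (y.1.1.2.2 i (fun h' => h' h)).trans (y'.1.1.2.2 i (fun h' => h' h)).symm
    · have := congrFun h1 i
      simpa [h] using this
  have hker := LinearMap.finrank_le_finrank_of_injective hG
  rw [Module.finrank_prod] at hker
  -- the range of φ₂
  have hrange : (Module.finrank ℝ (LinearMap.range φ₂) : ℤ) ≤ tdim X 2 := by
    refine le_trans ?_ (pdim_le_tdim X c)
    apply finrank_le_pdim (radon_mem_cell hz hspos hs.symm c hc0 hc1)
    rintro _ ⟨y, rfl⟩
    obtain ⟨ε, hε, hsmall⟩ := exists_small z y.1.1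
    have hs' := hsmall ε (le_of_eq (abs_of_pos hε))
    have hy0 : ∀ i, z i = 0 → y.1.1 i = 0 := fun i hi => y.1.2.2 i (fun h' => h' hi)
    set z' : {x // x ∈ X} → ℝ := z + ε • y.1.1 with hz'
    have hz'U : z' ∈ dep X := (dep X).add_mem hz ((dep X).smul_mem _ y.1.2.1)
    have hz'i : ∀ i, z' i = z i + ε * y.1.1 i := fun i => by simp [hz']
    have hmax : ∀ i, max (z' i) 0 = max (z i) 0 + ε * (if 0 < z i then y.1.1 i else 0) := by
      intro i
      rcases lt_trichotomy (z i) 0 with h | h | h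
      · rw [if_neg (not_lt.2 h.le), mul_zero, add_zero, max_eq_right h.le, max_eq_right]
        rw [hz'i]
        exact ((hs' i).2 h).le
      · rw [hz'i, hy0 i h, h]; simp
      · rw [if_pos h, max_eq_left h.le, max_eq_left, hz'i]
        rw [hz'i]
        exact ((hs' i).1 h).le
    have h1 : ∑ i, (if 0 < z i then y.1.1 i else 0) = 0 := by
      rw [← hφ₁]; exact y.2
    have hs2 : ∑ i, max (z' i) 0 = s := by
      rw [Finset.sum_congr rfl fun i _ => hmax i, Finset.sum_add_distrib, ← Finset.mul_sum, h1,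
        mul_zero, add_zero]
    have hmem := radon_mem_cell hz'U hspos hs2 c (by
      intro i hi
      apply hc0
      rcases lt_trichotomy (z i) 0 with h | h | h
      · rw [hz'i] at hi
        exact absurd hi (not_lt.2 ((hs' i).2 h).le)
      · rw [hz'i, hy0 i h, h] at hi
        simp at hi
      · exact h) (by
      intro i hi
      apply hc1
      rcases lt_trichotomy (z i) 0 with h | h | h
      · exact h
      · rw [hz'i, hy0 i h, h] at hi
        simp at hi
      · rw [hz'i] at hi
        exact absurd hi (not_lt.2 ((hs' i).1 h).le))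
    refine ⟨ε / s, div_pos hε hspos, ?_⟩
    have : ∑ i : {x // x ∈ X}, (max (z i) 0 / s) • i.1 + (ε / s) • φ₂ y =
        ∑ i : {x // x ∈ X}, (max (z' i) 0 / s) • i.1 := by
      rw [hφ₂, Finset.smul_sum, ← Finset.sum_add_distrib]
      refine Finset.sum_congr rfl fun i _ => ?_
      rw [smul_smul, ← add_smul, hmax]
      congr 1
      ring
    rw [this]
    exact hmem
  omega

end Fin

end Pool.Agent.Helper141
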