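import Mathlib
import Pool.Agent.Helper141_tverberg.Subspace

set_option autoImplicit false

namespace Pool.Agent.Helper141

variable {ι : Type*} [Fintype ι]

omit [Fintype ι] in
theorem t3_core {U : Submodule ℝ (ι → ℝ)} (hP : Pointed U) {z r ζA : ι → ℝ}
    (hr : r ∈ U) (hζA : ζA ∈ U) (hne : ζA ≠ 0)
    (hpos : ∀ i, 0 < z i → 0 ≤ r i) (hpos0 : ∀ i, 0 < z i → r i = 0 → 0 ≤ ζA i)
    (hneg : ∀ i, z i < 0 → r i ≤ 0) (hneg0 : ∀ i, z i < 0 → ζA i = 0)
    (hzero : ∀ i, z i = 0 → r i = 0 ∧ 0 ≤ ζA i) (μ : ℝ)
    (hμ : ∀ i, 0 < z i → 0 < r i → ζA i = -μ * r i) : HasT3 U := by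
  have hμpos : 0 < μ := by
    by_contra hcon
    push Not at hcon
    apply hne
    apply hP ζA hζA
    intro i
    rcases lt_trichotomy (z i) 0 with h | h | h
    · rw [hneg0 i h]
    · exact (hzero i h).2
    · rcases (hpos i h).lt_or_eq with h' | h'
      · rw [hμ i h h']
        exact mul_nonneg (by linarith) h'.le
      · exact hpos0 i h h'.symm
  have hrpos : ∀ i, 0 < r i → 0 < z i := by
    intro i h
    rcases lt_trichotomy (z i) 0 with h' | h' | h'
    · exact absurd h (not_lt.2 (hneg i h'))
    · exact absurd h (by rw [(hzero i h').1]; exact lt_irrefl 0)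
    · exact h'
  have hrneg : ∀ i, r i < 0 → z i < 0 := by
    intro i h
    rcases lt_trichotomy (z i) 0 with h' | h' | h'
    · exact h'
    · exact absurd h (by rw [(hzero i h').1]; exact lt_irrefl 0)
    · exact absurd h (not_lt.2 (hpos i h'))
  have hf3 : ∀ i, (0 < r i → ζA i + max (μ * r i) 0 = 0) ∧
      (r i < 0 → ζA i + max (μ * r i) 0 = 0) ∧ 0 ≤ ζA i + max (μ * r i) 0 := by
    intro i
    rcases lt_trichotomy (r i) 0 with h | h | h
    · have h1 : max (μ * r i) 0 = 0 := max_eq_right (mul_nonpos_of_nonneg_of_nonpos hμpos.le h.le)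
      have h2 := hneg0 i (hrneg i h)
      refine ⟨fun h' => absurd h (not_lt.2 h'.le), fun _ => by rw [h1, h2, add_zero], ?_⟩
      rw [h1, h2, add_zero]
    · refine ⟨fun h' => absurd h h'.ne', fun h' => absurd h h'.ne, ?_⟩
      rw [h, mul_zero, max_self, add_zero]
      rcases lt_trichotomy (z i) 0 with h' | h' | h'
      · rw [hneg0 i h']
      · exact (hzero i h').2
      · exact hpos0 i h' h
    · have h1 : max (μ * r i) 0 = μ * r i := max_eq_left (mul_nonneg hμpos.le h.le)
      have h2 := hμ i (hrpos i h) h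
      have h3 : ζA i + max (μ * r i) 0 = 0 := by rw [h1, h2]; ring
      exact ⟨fun _ => h3, fun _ => h3, h3.ge⟩
  have hsub : (fun i => max (μ * r i) 0) - (fun i => max (-(μ * r i)) 0) = μ • r := by
    funext i
    simp only [Pi.sub_apply, Pi.smul_apply, smul_eq_mul]
    rcases le_total 0 (μ * r i) with h | h
    · rw [max_eq_left h, max_eq_right (by linarith)]; ring
    · rw [max_eq_right h, max_eq_left (by linarith)]; ring
  refine ⟨fun i => max (μ * r i) 0, fun i => max (-(μ * r i)) 0,
    fun i => ζA i + max (μ * r i) 0, fun i => le_max_right _ _, fun i => le_max_right _ _,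
    fun i => (hf3 i).2.2, ?_, ?_, ?_, ?_, ?_, ?_⟩
  · intro i
    rcases le_total 0 (μ * r i) with h | h
    · right
      exact max_eq_right (by linarith)
    · left
      exact max_eq_right h
  · intro i
    rcases lt_or_ge 0 (r i) with h | h
    · right
      exact (hf3 i).1 h
    · left
      exact max_eq_right (mul_nonpos_of_nonneg_of_nonpos hμpos.le h)
  · intro i
    rcases lt_or_ge (r i) 0 with h | h
    · right
      exact (hf3 i).2.1 h
    · left
      exact max_eq_right (by have := mul_nonneg hμpos.le h; linarith)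
  · intro h0
    apply hne
    apply hP ζA hζA
    intro i
    have h1 := congrFun h0 i
    have h2 := (hf3 i).2.2
    simp only [Pi.zero_apply] at h1
    rw [h1, add_zero] at h2
    exact h2
  · rw [hsub]
    exact U.smul_mem _ hr
  · have : (fun i => max (μ * r i) 0) - (fun i => ζA i + max (μ * r i) 0) = -ζA := by
      funext i
      simp
    rw [this]
    exact U.neg_mem hζA

theorem case_main {U : Submodule ℝ (ι → ℝ)} (hP : Pointed U) {x : ι} {z ζA ζB : ι → ℝ}
    (hz : IsGood (delCoord U x) z) (hζA : ζA ∈ U) (hζB : ζB ∈ U) (hAx : ζA x = 1)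
    (hBx : ζB x = 1) (hAneg : ∀ i, z i < 0 → ζA i = 0) (hBpos : ∀ i, 0 < z i → ζB i = 0)
    (hoff : ∀ i, z i = 0 → 0 ≤ ζA i ∧ ζB i = ζA i)
    (hspan : ∀ y ∈ U, y x = 0 → ∃ a b : ℝ, y = a • z + b • (ζB - ζA))
    (i₀ : ι) (hi₀ : 0 < z i₀) (hi₀' : 0 < ζA i₀)
    (hminA : ∀ i, 0 < z i → 0 < ζA i → z i₀ / ζA i₀ ≤ z i / ζA i)
    (hminB : ∀ i, z i < 0 → 0 < ζB i → z i₀ / ζA i₀ ≤ -z i / ζB i) :
    HasT3 U ∨ HasGood U := by
  obtain ⟨hzU, hzero, hposi, hnegi⟩ := hz
  have hzU' := mem_delCoord.1 hzU
  set τ := z i₀ / ζA i₀ with hτ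
  have hτpos : 0 < τ := div_pos hi₀ hi₀'
  set r : ι → ℝ := z + τ • (ζB - ζA) with hr
  have hrU : r ∈ U := U.add_mem hzU'.1 (U.smul_mem _ (U.sub_mem hζB hζA))
  have hri : ∀ i, r i = z i + τ * (ζB i - ζA i) := fun i => by simp [hr]
  have hrx : r x = 0 := by rw [hri, hzU'.2, hAx, hBx]; ring
  have hAne : ζA ≠ 0 := by
    intro h
    rw [h] at hAx
    simp at hAx
  have hri₀ : r i₀ = 0 := by
    rw [hri, hBpos i₀ hi₀, hτ]
    field_simp
    ring
  -- signs of r
  have hpos : ∀ i, 0 < z i → 0 ≤ r i := by
    intro i hi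
    rw [hri, hBpos i hi]
    rcases le_or_gt (ζA i) 0 with h | h
    · nlinarith
    · have h1 := hminA i hi h
      rw [le_div_iff₀ h] at h1
      linarith
  have hpos0 : ∀ i, 0 < z i → r i = 0 → 0 < ζA i := by
    intro i hi h
    rw [hri, hBpos i hi] at h
    by_contra hcon
    push Not at hcon
    nlinarith
  have hneg : ∀ i, z i < 0 → r i ≤ 0 := by
    intro i hi
    rw [hri, hAneg i hi]
    rcases le_or_gt (ζB i) 0 with h | h
    · nlinarith
    · have h1 := hminB i hi h
      rw [le_div_iff₀ h] at h1
      linarith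
  have hneg0 : ∀ i, z i < 0 → r i = 0 → 0 < ζB i := by
    intro i hi h
    rw [hri, hAneg i hi] at h
    by_contra hcon
    push Not at hcon
    nlinarith
  have hz0 : ∀ i, z i = 0 → r i = 0 := by
    intro i hi
    rw [hri, (hoff i hi).2, hi]; ring
  -- vectors of U that vanish at a zero of z
  have hvan : ∀ i, z i = 0 → ζA i = 0 → ∀ y ∈ U, y i = 0 := by
    intro i hi hAi y hy
    have h1 : y - y x • ζA ∈ delCoord U x := by
      refine mem_delCoord.2 ⟨U.sub_mem hy (U.smul_mem _ hζA), ?_⟩
      simp [hAx]
    have h2 := hzero i hi _ h1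
    simp only [Pi.sub_apply, Pi.smul_apply, smul_eq_mul, hAi, mul_zero, sub_zero] at h2
    exact h2
  -- decomposition
  have hdec : ∀ y ∈ U, ∃ a b : ℝ, ∀ i, y i = a * r i + b * (ζB i - ζA i) + y x * ζA i := by
    intro y hy
    obtain ⟨a, b, hab⟩ := hspan (y - y x • ζA) (U.sub_mem hy (U.smul_mem _ hζA)) (by simp [hAx])
    refine ⟨a, b - a * τ, fun i => ?_⟩
    have h1 := congrFun hab i
    simp only [Pi.sub_apply, Pi.smul_apply, smul_eq_mul, Pi.add_apply] at h1
    rw [hri]
    linear_combination h1
  by_cases hμ : ∃ μ : ℝ, ∀ i, 0 < z i → 0 < r i → ζA i = -μ * r i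
  · obtain ⟨μ, hμ⟩ := hμ
    left
    exact t3_core hP hrU hζA hAne hpos (fun i h1 h2 => (hpos0 i h1 h2).le) hneg hAneg
      (fun i hi => ⟨hz0 i hi, (hoff i hi).1⟩) μ hμ
  right
  push Not at hμ
  obtain ⟨i₁, hi₁, hi₁', -⟩ := hμ 0
  have hrne : r ≠ 0 := by
    intro h
    rw [h] at hi₁'
    exact lt_irrefl _ hi₁'
  -- a coordinate with r < 0
  obtain ⟨k₁, hk₁⟩ : ∃ k, r k < 0 := by
    by_contra hcon
    push Not at hcon
    exact hrne (hP r hrU hcon)
  have hk₁z : z k₁ < 0 := by
    rcases lt_trichotomy (z k₁) 0 with h' | h' | h'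
    · exact h'
    · exact absurd hk₁ (by rw [hz0 k₁ h']; exact lt_irrefl 0)
    · exact absurd hk₁ (not_lt.2 (hpos k₁ h'))
  by_cases hΛ : ∃ j, z j < 0 ∧ r j = 0
  · obtain ⟨j₀, hj₀, hj₀'⟩ := hΛ
    obtain ⟨t, ht, hsmall⟩ := exists_small r (ζB - (2 : ℝ) • ζA)
    have hs := hsmall t (le_of_eq (abs_of_pos ht))
    set z' : ι → ℝ := r + t • (ζB - (2 : ℝ) • ζA) with hz'
    have hz'U : z' ∈ U := U.add_mem hrU (U.smul_mem _ (U.sub_mem hζB (U.smul_mem _ hζA)))
    have hz'i : ∀ i, z' i = r i + t * (ζB i - 2 * ζA i) := fun i => by simp [hz']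
    have hs' : ∀ i, (0 < r i → 0 < z' i) ∧ (r i < 0 → z' i < 0) := by
      intro i
      have := hs i
      simp only [Pi.sub_apply, Pi.smul_apply, smul_eq_mul] at this
      rw [hz'i]
      exact this
    have hΛA : ∀ i, 0 < z i → r i = 0 → z' i < 0 := by
      intro i h1 h2
      rw [hz'i, h2, hBpos i h1]
      have := mul_pos ht (hpos0 i h1 h2)
      linarith
    have hΛB : ∀ i, z i < 0 → r i = 0 → 0 < z' i := by
      intro i h1 h2
      rw [hz'i, h2, hAneg i h1]
      have := mul_pos ht (hneg0 i h1 h2)
      linarith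
    have hzz : ∀ i, z i = 0 → z' i = -(t * ζA i) := by
      intro i hi
      rw [hz'i, hz0 i hi, (hoff i hi).2]; ring
    refine ⟨z', hz'U, ?_, ?_, ?_⟩
    · intro i hi y hy
      rcases lt_trichotomy (z i) 0 with h | h | h
      · exfalso
        rcases (hneg i h).lt_or_eq with h' | h'
        · exact absurd hi ((hs' i).2 h').ne
        · exact absurd hi (hΛB i h h').ne'
      · refine hvan i h ?_ y hy
        rw [hzz i h, neg_eq_zero] at hi
        exact (mul_eq_zero.1 hi).resolve_left ht.ne'
      · exfalso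
        rcases (hpos i h).lt_or_eq with h' | h'
        · exact absurd hi ((hs' i).1 h').ne'
        · exact absurd hi (hΛA i h h'.symm).ne
    · intro y hy hsup
      have hyx : y x = 0 := by
        apply hsup x
        rw [hzz x hzU'.2, hAx]
        linarith
      obtain ⟨a, b, hab⟩ := hdec y hy
      have hb : b = 0 := by
        have h1 := hsup i₀ (hΛA i₀ hi₀ hri₀).le
        rw [hab i₀, hri₀, hBpos i₀ hi₀, hyx] at h1
        have h2 : b * ζA i₀ = 0 := by linarith
        exact (mul_eq_zero.1 h2).resolve_right hi₀'.ne'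
      have ha : a = 0 := by
        have h1 := hsup k₁ ((hs' k₁).2 hk₁).le
        rw [hab k₁, hb, hyx] at h1
        have h2 : a * r k₁ = 0 := by linarith
        exact (mul_eq_zero.1 h2).resolve_right hk₁.ne
      funext i
      rw [hab i, ha, hb, hyx]
      simp
    · intro y hy hsup
      obtain ⟨a, b, hab⟩ := hdec y hy
      have hb : b = 0 := by
        have h1 := hsup j₀ (hΛB j₀ hj₀ hj₀').le
        rw [hab j₀, hj₀', hAneg j₀ hj₀] at h1
        have h2 : b * ζB j₀ = 0 := by linarith
        exact (mul_eq_zero.1 h2).resolve_right (hneg0 j₀ hj₀ hj₀').ne'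
      have hA1 : ∀ i, 0 < z i → 0 < r i → a * r i + y x * ζA i = 0 := by
        intro i h1 h2
        have h3 := hsup i ((hs' i).1 h2).le
        rw [hab i, hb] at h3
        linarith
      by_cases hyx : y x = 0
      · have ha : a = 0 := by
          have h1 := hA1 i₁ hi₁ hi₁'
          rw [hyx] at h1
          have h2 : a * r i₁ = 0 := by linarith
          exact (mul_eq_zero.1 h2).resolve_right hi₁'.ne'
        funext i
        rw [hab i, ha, hb, hyx]
        simp
      · exfalso
        obtain ⟨i, h1, h2, h3⟩ := hμ (a / y x)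
        apply h3
        have h4 := hA1 i h1 h2
        field_simp
        linarith
  · push Not at hΛ
    have hneg' : ∀ i, z i < 0 → r i < 0 := fun i hi => lt_of_le_of_ne (hneg i hi) (hΛ i hi)
    obtain ⟨t, ht, hsmall⟩ := exists_small r ((2 : ℝ) • ζB - ζA)
    have hs := hsmall t (le_of_eq (abs_of_pos ht))
    set z' : ι → ℝ := r + t • ((2 : ℝ) • ζB - ζA) with hz'
    have hz'U : z' ∈ U := U.add_mem hrU (U.smul_mem _ (U.sub_mem (U.smul_mem _ hζB) hζA))
    have hz'i : ∀ i, z' i = r i + t * (2 * ζB i - ζA i) := fun i => by simp [hz']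
    have hs' : ∀ i, (0 < r i → 0 < z' i) ∧ (r i < 0 → z' i < 0) := by
      intro i
      have := hs i
      simp only [Pi.sub_apply, Pi.smul_apply, smul_eq_mul] at this
      rw [hz'i]
      exact this
    have hΛA : ∀ i, 0 < z i → r i = 0 → z' i < 0 := by
      intro i h1 h2
      rw [hz'i, h2, hBpos i h1]
      have := mul_pos ht (hpos0 i h1 h2)
      linarith
    have hzz : ∀ i, z i = 0 → z' i = t * ζA i := by
      intro i hi
      rw [hz'i, hz0 i hi, (hoff i hi).2]; ring
    refine ⟨z', hz'U, ?_, ?_, ?_⟩
    · intro i hi y hy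
      rcases lt_trichotomy (z i) 0 with h | h | h
      · exfalso
        exact absurd hi ((hs' i).2 (hneg' i h)).ne
      · refine hvan i h ?_ y hy
        rw [hzz i h] at hi
        exact (mul_eq_zero.1 hi).resolve_left ht.ne'
      · exfalso
        rcases (hpos i h).lt_or_eq with h' | h'
        · exact absurd hi ((hs' i).1 h').ne'
        · exact absurd hi (hΛA i h h'.symm).ne
    · intro y hy hsup
      obtain ⟨a, b, hab⟩ := hdec y hy
      have hb : b = y x := by
        have h1 := hsup i₀ (hΛA i₀ hi₀ hri₀).le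
        rw [hab i₀, hri₀, hBpos i₀ hi₀] at h1
        have h2 : (b - y x) * ζA i₀ = 0 := by linarith
        have h3 := (mul_eq_zero.1 h2).resolve_right hi₀'.ne'
        linarith
      have hB1 : ∀ i, z i < 0 → a * r i + y x * ζB i = 0 := by
        intro i h1
        have h3 := hsup i ((hs' i).2 (hneg' i h1)).le
        rw [hab i, hb] at h3
        linarith
      by_cases hyx : y x = 0
      · have ha : a = 0 := by
          have h1 := hB1 k₁ hk₁z
          rw [hyx] at h1
          have h2 : a * r k₁ = 0 := by linarith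
          exact (mul_eq_zero.1 h2).resolve_right hk₁.ne
        funext i
        rw [hab i, ha, hb, hyx]
        simp
      · exfalso
        -- `ζB = -(a / y x) r` on the negative part, so `z` is a multiple of `r` there
        have h1 : z - (1 + τ * (a / y x)) • r ∈ delCoord U x := by
          refine mem_delCoord.2 ⟨U.sub_mem hzU'.1 (U.smul_mem _ hrU), ?_⟩
          simp [hzU'.2, hrx]
        have h2 := hposi _ h1 (by
          intro i hi
          simp only [Pi.sub_apply, Pi.smul_apply, smul_eq_mul]
          rcases hi.lt_or_eq with h | h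
          · have h3 := hB1 i h
            have h4 : ζB i = -(a / y x) * r i := by
              field_simp
              linarith
            have h5 := hri i
            rw [hAneg i h, h4] at h5
            linear_combination -h5
          · rw [h, hz0 i h]; ring)
        have h3 := congrFun h2 i₀
        simp only [Pi.sub_apply, Pi.smul_apply, smul_eq_mul, hri₀, mul_zero, sub_zero,
          Pi.zero_apply] at h3
        exact hi₀.ne' h3
    · intro y hy hsup
      have hyx : y x = 0 := by
        apply hsup x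
        rw [hzz x hzU'.2, hAx]
        linarith
      obtain ⟨a, b, hab⟩ := hdec y hy
      have hA1 : ∀ i, 0 < z i → 0 < r i → a * r i - b * ζA i = 0 := by
        intro i h1 h2
        have h3 := hsup i ((hs' i).1 h2).le
        rw [hab i, hBpos i h1, hyx] at h3
        linarith
      by_cases hb : b = 0
      · have ha : a = 0 := by
          have h1 := hA1 i₁ hi₁ hi₁'
          rw [hb] at h1
          have h2 : a * r i₁ = 0 := by linarith
          exact (mul_eq_zero.1 h2).resolve_right hi₁'.ne'
        funext i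
        rw [hab i, ha, hb, hyx]
        simp
      · exfalso
        obtain ⟨i, h1, h2, h3⟩ := hμ (-(a / b))
        apply h3
        have h4 := hA1 i h1 h2
        field_simp
        linarith

theorem span_pair {V : Submodule ℝ (ι → ℝ)} (hV : Module.finrank ℝ V ≤ 2) {z ξ : ι → ℝ}
    (hz : z ∈ V) (hξ : ξ ∈ V) (hz0 : z ≠ 0) (hind : ∀ c : ℝ, ξ ≠ c • z) {y : ι → ℝ} (hy : y ∈ V) :
    ∃ a b : ℝ, y = a • z + b • ξ := by
  have hli : LinearIndependent ℝ ![z, ξ] := by
    rw [LinearIndependent.pair_iff]
    intro s t hst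
    by_cases ht : t = 0
    · subst ht
      rw [zero_smul, add_zero] at hst
      exact ⟨(smul_eq_zero.1 hst).resolve_right hz0, rfl⟩
    · exfalso
      apply hind (-(s / t))
      have : ξ = t⁻¹ • (t • ξ) := by rw [smul_smul, inv_mul_cancel₀ ht, one_smul]
      rw [this, eq_neg_of_add_eq_zero_right hst, smul_neg, smul_smul, neg_smul]
      congr 2
      field_simp
  have hle : Submodule.span ℝ (Set.range ![z, ξ]) ≤ V := by
    rw [Submodule.span_le]
    rintro _ ⟨i, rfl⟩
    fin_cases i
    · exact hz
    · exact hξ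
  have heq : Submodule.span ℝ (Set.range ![z, ξ]) = V := by
    apply Submodule.eq_of_le_of_finrank_le hle
    rw [finrank_span_eq_card hli]
    simpa using hV
  rw [← heq] at hy
  have hr : Set.range ![z, ξ] = {z, ξ} := by
    simp [Matrix.range_cons, Matrix.range_empty, Set.pair_comm]
  rw [hr, Submodule.mem_span_pair] at hy
  obtain ⟨a, b, hab⟩ := hy
  exact ⟨a, b, hab.symm⟩

omit [Fintype ι] in
theorem IsGood.neg {U : Submodule ℝ (ι → ℝ)} {z : ι → ℝ} (h : IsGood U z) : IsGood U (-z) := by
  obtain ⟨h1, h2, h3, h4⟩ := h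
  refine ⟨U.neg_mem h1, ?_, ?_, ?_⟩
  · intro i hi
    rw [Pi.neg_apply, neg_eq_zero] at hi
    exact h2 i hi
  · intro y hy hs
    exact h4 y hy fun i hi => hs i (by rw [Pi.neg_apply]; linarith)
  · intro y hy hs
    exact h3 y hy fun i hi => hs i (by rw [Pi.neg_apply]; linarith)

/-- If `U` has dimension at most `3` then it has three nonnegative vectors with disjoint supports
and differences in `U`, or a good vector. -/
theorem hasT3_or_hasGood (m : ℕ) : ∀ U : Submodule ℝ (ι → ℝ), Pointed U →
    Module.finrank ℝ U ≤ m → m ≤ 3 → HasT3 U ∨ HasGood U := by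
  classical
  induction m with
  | zero =>
    intro U _ hm _
    have hbot : U = ⊥ := Submodule.finrank_eq_zero.1 (Nat.le_zero.1 hm)
    right
    refine ⟨0, U.zero_mem, ?_, ?_, ?_⟩
    · intro i _ y hy
      rw [hbot, Submodule.mem_bot] at hy
      rw [hy]; rfl
    · intro y hy _
      rwa [hbot, Submodule.mem_bot] at hy
    · intro y hy _
      rwa [hbot, Submodule.mem_bot] at hy
  | succ m ih =>
    intro U hP hm hm3
    by_cases hbot : U = ⊥
    · exact ih U hP (by rw [hbot, finrank_bot]; omega) (by omega)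
    obtain ⟨y₀, hy₀, hy₀ne⟩ := (Submodule.ne_bot_iff U).1 hbot
    obtain ⟨x, hx⟩ : ∃ x, y₀ x ≠ 0 := by
      by_contra hcon
      push Not at hcon
      exact hy₀ne (funext hcon)
    set ζ := (y₀ x)⁻¹ • y₀ with hζ
    have hζU : ζ ∈ U := U.smul_mem _ hy₀
    have hζx : ζ x = 1 := by simp [hζ, hx]
    have hlt : delCoord U x < U := by
      refine lt_of_le_of_ne inf_le_left ?_
      intro h
      have h1 : ζ ∈ delCoord U x := by rw [h]; exact hζU
      have h2 := (mem_delCoord.1 h1).2
      rw [hζx] at h2
      exact one_ne_zero h2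
    have hfin : Module.finrank ℝ (delCoord U x) < Module.finrank ℝ U :=
      Submodule.finrank_lt_finrank_of_lt hlt
    rcases ih (delCoord U x) (hP.delCoord x) (by omega) (by omega) with h | ⟨z, hz⟩
    · exact Or.inl (h.of_le inf_le_left)
    rcases step hζU hζx hz with h | ⟨ζA, ζB, hζA, hζB, hAx, hBx, hAneg, hBpos, hoff⟩
    · exact Or.inr h
    have hzU := mem_delCoord.1 hz.1
    have hAne : ζA ≠ 0 := by
      intro h
      rw [h] at hAx
      simp at hAx
    by_cases hcase : (∀ i, 0 < z i → ζA i ≤ 0) ∧ (∀ i, z i < 0 → ζB i ≤ 0)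
    · -- three vectors at once
      left
      obtain ⟨hc1, hc2⟩ := hcase
      refine ⟨fun i => if z i = 0 then ζA i else 0, fun i => if 0 < z i then -ζA i else 0,
        fun i => if z i < 0 then -ζB i else 0, ?_, ?_, ?_, ?_, ?_, ?_, ?_, ?_, ?_⟩
      · intro i
        by_cases h : z i = 0
        · simp only [h, if_true]; exact (hoff i h).1
        · simp only [h, if_false]; exact le_refl _
      · intro i
        by_cases h : 0 < z i
        · simp only [h, if_true]; linarith [hc1 i h]
        · simp only [h, if_false]; exact le_refl _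
      · intro i
        by_cases h : z i < 0
        · simp only [h, if_true]; linarith [hc2 i h]
        · simp only [h, if_false]; exact le_refl _
      · intro i
        by_cases h : z i = 0
        · right
          simp [h]
        · left
          simp [h]
      · intro i
        by_cases h : z i = 0
        · right
          simp [h]
        · left
          simp [h]
      · intro i
        by_cases h : 0 < z i
        · right
          simp [h.le]
        · left
          simp [h]
      · intro h
        have h1 := congrFun h x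
        simp only [hzU.2, if_true, hAx, Pi.zero_apply] at h1
        exact one_ne_zero h1
      · have : ((fun i => if z i = 0 then ζA i else 0) - fun i => if 0 < z i then -ζA i else 0) =
            ζA := by
          funext i
          simp only [Pi.sub_apply]
          rcases lt_trichotomy (z i) 0 with h | h | h
          · rw [if_neg h.ne, if_neg (not_lt.2 h.le), hAneg i h]; ring
          · rw [if_pos h, if_neg (by rw [h]; exact lt_irrefl _)]; ring
          · rw [if_neg h.ne', if_pos h]; ring
        rw [this]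
        exact hζA
      · have : ((fun i => if z i = 0 then ζA i else 0) - fun i => if z i < 0 then -ζB i else 0) =
            ζB := by
          funext i
          simp only [Pi.sub_apply]
          rcases lt_trichotomy (z i) 0 with h | h | h
          · rw [if_neg h.ne, if_pos h]; ring
          · rw [if_pos h, if_neg (by rw [h]; exact lt_irrefl _), (hoff i h).2]; ring
          · rw [if_neg h.ne', if_neg (not_lt.2 h.le), hBpos i h]; ring
        rw [this]
        exact hζB
    -- `z` and `ζB - ζA` are independent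
    have hex : (∃ i, 0 < z i ∧ 0 < ζA i) ∨ (∃ i, z i < 0 ∧ 0 < ζB i) := by
      by_contra hcon
      push Not at hcon
      exact hcase hcon
    have hzne : z ≠ 0 := by
      intro h
      rcases hex with ⟨i, h1, -⟩ | ⟨i, h1, -⟩
      · rw [h] at h1; exact lt_irrefl _ h1
      · rw [h] at h1; exact lt_irrefl _ h1
    have hξV : ζB - ζA ∈ delCoord U x :=
      mem_delCoord.2 ⟨U.sub_mem hζB hζA, by simp [hAx, hBx]⟩
    have hind : ∀ c : ℝ, ζB - ζA ≠ c • z := by
      intro c hc
      have hci : ∀ i, ζB i - ζA i = c * z i := fun i => by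
        have := congrFun hc i
        simpa using this
      have hc0 : c < 0 := by
        rcases hex with ⟨i, h1, h2⟩ | ⟨i, h1, h2⟩
        · have h3 := hci i
          rw [hBpos i h1] at h3
          by_contra hcon
          push Not at hcon
          nlinarith
        · have h3 := hci i
          rw [hAneg i h1] at h3
          by_contra hcon
          push Not at hcon
          nlinarith
      apply hAne
      apply hP ζA hζA
      intro i
      rcases lt_trichotomy (z i) 0 with h | h | h
      · rw [hAneg i h]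
      · exact (hoff i h).1
      · have h3 := hci i
        rw [hBpos i h] at h3
        nlinarith
    have hV2 : Module.finrank ℝ (delCoord U x) ≤ 2 := by omega
    -- the ratios
    set S : Finset ι := Finset.univ.filter
      (fun i => (0 < z i ∧ 0 < ζA i) ∨ (z i < 0 ∧ 0 < ζB i)) with hS
    have hSne : S.Nonempty := by
      rcases hex with ⟨i, h1, h2⟩ | ⟨i, h1, h2⟩
      · exact ⟨i, by simp [hS, h1, h2]⟩
      · exact ⟨i, by simp [hS, h1, h2]⟩
    obtain ⟨i₀, hi₀S, hmin⟩ := Finset.exists_min_image S
      (fun i => if 0 < z i then z i / ζA i else -z i / ζB i) hSne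
    have hi₀ : (0 < z i₀ ∧ 0 < ζA i₀) ∨ (z i₀ < 0 ∧ 0 < ζB i₀) := by
      simpa [hS] using hi₀S
    rcases hi₀ with ⟨h1, h2⟩ | ⟨h1, h2⟩
    · refine case_main hP hz hζA hζB hAx hBx hAneg hBpos hoff
        (fun y hy hyx => span_pair hV2 hz.1 hξV hzne hind (mem_delCoord.2 ⟨hy, hyx⟩))
        i₀ h1 h2 ?_ ?_
      · intro i h3 h4
        have h5 := hmin i (by simp [hS, h3, h4])
        simpa only [h1, h3, if_true] using h5
      · intro i h3 h4
        have h5 := hmin i (by simp [hS, h3, h4])
        simpa only [h1, if_true, not_lt.2 h3.le, if_false] using h5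
    · have hξV' : ζA - ζB ∈ delCoord U x := by
        have := (delCoord U x).neg_mem hξV
        rwa [neg_sub] at this
      refine case_main hP (z := -z) hz.neg hζB hζA hBx hAx ?_ ?_ ?_
        (fun y hy hyx => span_pair hV2 hz.neg.1 hξV' (neg_ne_zero.2 hzne) ?_
          (mem_delCoord.2 ⟨hy, hyx⟩)) i₀ ?_ h2 ?_ ?_
      · intro i h3
        rw [Pi.neg_apply] at h3
        exact hBpos i (by linarith)
      · intro i h3
        rw [Pi.neg_apply] at h3
        exact hAneg i (by linarith)
      · intro i h3
        rw [Pi.neg_apply, neg_eq_zero] at h3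
        obtain ⟨h4, h5⟩ := hoff i h3
        exact ⟨by rw [h5]; exact h4, h5.symm⟩
      · intro c hc
        apply hind c
        rw [← neg_sub, hc, smul_neg, neg_neg]
      · rw [Pi.neg_apply]; linarith
      · intro i h3 h4
        rw [Pi.neg_apply] at h3
        have h3' : z i < 0 := by linarith
        have h5 := hmin i (by simp [hS, h3', h4])
        rw [if_neg (not_lt.2 h1.le), if_neg (not_lt.2 h3'.le)] at h5
        exact h5
      · intro i h3 h4
        rw [Pi.neg_apply] at h3
        have h3' : 0 < z i := by linarith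
        have h5 := hmin i (by simp [hS, h3', h4])
        rw [if_neg (not_lt.2 h1.le), if_pos h3'] at h5
        rw [Pi.neg_apply, Pi.neg_apply, neg_neg]
        exact h5

end Pool.Agent.Helper141
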