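import Mathlib
import Pool.Agent.Helper141_tverberg.Affine
import Pool.Agent.Helper141_tverberg.Few

set_option autoImplicit false

namespace Pool.Agent.Helper141

variable {ι : Type*} [Fintype ι]

omit [Fintype ι] in
theorem HasT.mono {U : Submodule ℝ (ι → ℝ)} {k l : ℕ} (h : HasT U k) (hl : l ≤ k) : HasT U l := by
  obtain ⟨f, h1, h2, h3, h4⟩ := h
  refine ⟨fun j => f (Fin.castLE hl j), fun j i => h1 _ i, fun j => h2 _, ?_, fun j j' => h4 _ _⟩
  intro j j' hjj' i
  exact h3 _ _ (fun h => hjj' (Fin.castLE_injective hl h)) i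

theorem HasT.le_card {U : Submodule ℝ (ι → ℝ)} {k : ℕ} (h : HasT U k) : k ≤ Fintype.card ι := by
  obtain ⟨f, h1, h2, h3, h4⟩ := h
  have hpt : ∀ k, ∃ i, f k i ≠ 0 := by
    intro k
    by_contra hcon
    push Not at hcon
    exact h2 k (funext hcon)
  choose g hg using hpt
  have hinj : Function.Injective g := by
    intro j j' hjj'
    by_contra hne
    rcases h3 j j' hne (g j) with h | h
    · exact hg j h
    · rw [hjj'] at h
      exact hg j' h
  simpa using Fintype.card_le_of_injective g hinj

omit [Fintype ι] in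
theorem HasT3.hasT {U : Submodule ℝ (ι → ℝ)} (hP : Pointed U) (h : HasT3 U) : HasT U 3 := by
  obtain ⟨f, g, k, hf, hg, hk, hfg, hfk, hgk, hne, h1, h2⟩ := h
  have hg0 : g ≠ 0 := by
    rintro rfl
    rw [sub_zero] at h1
    exact hne (hP f h1 hf)
  have hk0 : k ≠ 0 := by
    rintro rfl
    rw [sub_zero] at h2
    exact hne (hP f h2 hf)
  refine ⟨![f, g, k], ?_, ?_, ?_, ?_⟩
  · intro j
    fin_cases j
    · exact hf
    · exact hg
    · exact hk
  · intro j
    fin_cases j
    · exact hne
    · exact hg0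
    · exact hk0
  · intro j j' hjj' i
    fin_cases j <;> fin_cases j' <;> first
      | exact absurd rfl hjj'
      | exact hfg i
      | exact hfk i
      | exact hgk i
      | exact (hfg i).symm
      | exact (hfk i).symm
      | exact (hgk i).symm
  · have h3 : g - k ∈ U := by
      have := U.sub_mem h2 h1
      rwa [sub_sub_sub_cancel_left] at this
    have hneg : ∀ a b : ι → ℝ, a - b ∈ U → b - a ∈ U := by
      intro a b hab
      have := U.neg_mem hab
      rwa [neg_sub] at this
    intro j j'
    fin_cases j <;> fin_cases j' <;> first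
      | exact h1
      | exact h2
      | exact h3
      | exact hneg _ _ h1
      | exact hneg _ _ h2
      | exact hneg _ _ h3
      | (simp only [Fin.zero_eta, Fin.isValue, Fin.mk_one, Fin.reduceFinMk, sub_self]
         exact U.zero_mem)

variable {E : Type*} [AddCommGroup E] [Module ℝ E] [FiniteDimensional ℝ E]

theorem thin_dep {X : Finset E} (h : tdim X 2 ≤ 0) : Thin (dep X) := by
  intro z hz
  have := finrank_onSet_le X hz
  omega

theorem tdim_two_of_good {X : Finset E} (h : HasGood (dep X)) :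
    (Module.finrank ℝ (dep X) : ℤ) ≤ 1 + tdim X 2 := by
  obtain ⟨z, hz, hzero, hpos, hneg⟩ := h
  have h1 := finrank_onSet_le X hz
  have h2 : onSet (dep X) {i | 0 < z i} = ⊥ := by
    rw [eq_bot_iff]
    intro y hy
    exact (Submodule.mem_bot ℝ).2 (hpos y hy.1 fun i hi => hy.2 i (not_lt.2 hi))
  have h3 : onSet (dep X) {i | z i < 0} = ⊥ := by
    rw [eq_bot_iff]
    intro y hy
    exact (Submodule.mem_bot ℝ).2 (hneg y hy.1 fun i hi => hy.2 i (not_lt.2 hi))
  rw [onSet_full hzero, h2, h3, finrank_bot] at h1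
  push_cast at h1
  omega

theorem zero_le_tdim_of_nonempty (X : Finset E) {k : ℕ} (h : ∃ c : E → Fin k, (cell X c).Nonempty) :
    0 ≤ tdim X k := by
  obtain ⟨c, x, hx⟩ := h
  exact zero_le_tdim_of_mem X c hx

theorem sum_lower (X : Finset E) {k n : ℕ} (hk : k ≤ n) :
    ∑ r ∈ Finset.Icc 1 k, tdim X r - ((n : ℤ) - k) ≤ ∑ r ∈ Finset.Icc 1 n, tdim X r := by
  obtain ⟨l, rfl⟩ := Nat.exists_eq_add_of_le hk
  induction l with
  | zero => simp
  | succ l ih =>
    have h1 := ih (by omega)
    rw [← add_assoc, Finset.sum_Icc_succ_top (by omega)]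
    have h2 := neg_one_le_tdim X (r := k + l + 1) (by omega)
    push_cast at h1 ⊢
    linarith

/-- The Tverberg sets when the Radon points form a finite set. -/
theorem cell_nonempty_of_thin {X : Finset E} (hX : X.Nonempty) (h : tdim X 2 ≤ 0) {r : ℕ}
    (hr1 : 1 ≤ r) (hr : r + Module.finrank ℝ (vectorSpan ℝ (X : Set E)) ≤ X.card) :
    ∃ c : E → Fin r, (cell X c).Nonempty := by
  have h1 := finrank_dep hX
  rcases Nat.eq_zero_or_pos (Module.finrank ℝ (dep X)) with h0 | h0
  · have : r = 1 := by omega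
    subst this
    obtain ⟨x, hx⟩ := hX
    refine ⟨fun _ => 0, x, ?_⟩
    rw [cell, Set.mem_iInter]
    intro i
    exact subset_convexHull ℝ _ ⟨hx, (Subsingleton.elim _ _)⟩
  · exact zero_le_tdim_of_hasT hr1
      ((hasT_of_thin _ _ (pointed_dep X) (thin_dep h) rfl h0).mono (by omega))

theorem sum_nonneg_of_thin {X : Finset E} (h : tdim X 2 ≤ 0) :
    0 ≤ ∑ r ∈ Finset.Icc 1 X.card, tdim X r := by
  rcases X.eq_empty_or_nonempty with rfl | hX
  · simp
  have h1 := finrank_dep hX
  have h2 := finrank_le_tdim_one X hX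
  set D := Module.finrank ℝ (vectorSpan ℝ (X : Set E)) with hD
  have h3 := sum_lower X (k := X.card - D) (n := X.card) (by omega)
  have h4 : (D : ℤ) ≤ ∑ r ∈ Finset.Icc 1 (X.card - D), tdim X r := by
    obtain ⟨p, hp⟩ : ∃ p, X.card - D = p + 1 := ⟨X.card - D - 1, by omega⟩
    have hI : ∑ r ∈ Finset.Icc 1 (p + 1), tdim X r =
        ∑ q ∈ Finset.range (p + 1), tdim X (q + 1) := by
      rw [Finset.range_eq_Ico, Finset.sum_Ico_add' (fun r => tdim X r) 0 (p + 1) 1]
      rfl
    rw [hp, hI, Finset.sum_range_succ']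
    have h5 : 0 ≤ ∑ q ∈ Finset.range p, tdim X (q + 1 + 1) := by
      apply Finset.sum_nonneg
      intro q hq
      rw [Finset.mem_range] at hq
      exact zero_le_tdim_of_nonempty X (cell_nonempty_of_thin hX h (by omega) (by omega))
    simp only [zero_add]
    linarith
  have h5 : ((X.card - D : ℕ) : ℤ) = (X.card : ℤ) - D := by
    rw [Nat.cast_sub (by omega)]
  rw [h5] at h3
  linarith

theorem sum_nonneg_of_few {X : Finset E}
    (hX : X.card ≤ Module.finrank ℝ (vectorSpan ℝ (X : Set E)) + 4) :
    0 ≤ ∑ r ∈ Finset.Icc 1 X.card, tdim X r := by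
  rcases X.eq_empty_or_nonempty with rfl | hne
  · simp
  have h1 := finrank_dep hne
  have h2 := finrank_le_tdim_one X hne
  set D := Module.finrank ℝ (vectorSpan ℝ (X : Set E)) with hD
  rcases hasT3_or_hasGood 3 (dep X) (pointed_dep X) (by omega) le_rfl with h | h
  · have hT := h.hasT (pointed_dep X)
    have hc := hT.le_card
    rw [Fintype.card_coe] at hc
    have ht3 := zero_le_tdim_of_nonempty X (zero_le_tdim_of_hasT (by norm_num) hT)
    have ht2 := zero_le_tdim_of_nonempty X (zero_le_tdim_of_hasT (by norm_num)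
      (hT.mono (show 2 ≤ 3 by norm_num)))
    have hs3 := sum_lower X (k := 3) (n := X.card) hc
    have he3 : ∑ r ∈ Finset.Icc 1 3, tdim X r = tdim X 1 + tdim X 2 + tdim X 3 := by
      rw [Finset.sum_Icc_succ_top (by norm_num), Finset.sum_Icc_succ_top (by norm_num),
        Finset.Icc_self, Finset.sum_singleton]
    rw [he3] at hs3
    push_cast at hs3
    by_cases hm : X.card ≤ D + 3
    · omega
    · by_cases ht : 1 ≤ tdim X 2
      · omega
      · exact sum_nonneg_of_thin (by omega)
  · have ht2 := tdim_two_of_good h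
    rcases Nat.lt_or_ge X.card 2 with hlt | hge
    · have hc1 : X.card = 1 := by
        have := hne.card_pos
        omega
      rw [hc1, Finset.Icc_self, Finset.sum_singleton]
      omega
    · have hs2 := sum_lower X (k := 2) (n := X.card) hge
      have he2 : ∑ r ∈ Finset.Icc 1 2, tdim X r = tdim X 1 + tdim X 2 := by
        rw [Finset.sum_Icc_succ_top (by norm_num), Finset.Icc_self, Finset.sum_singleton]
      rw [he2] at hs2
      push_cast at hs2
      omega

end Pool.Agent.Helper141
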