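import Mathlib

set_option autoImplicit false

namespace Pool.Agent.Helper141

open Submodule Set

variable {E : Type*} [AddCommGroup E] [Module ℝ E]

/-- Exchange: a linearly independent family of vectors `w k ⊗ x k` in `Fin p → E` can be turned
into an independent family of vectors supported in one coordinate. -/
theorem exchange {κ : Type*} [Finite κ] {p : ℕ} (w : κ → Fin p → ℝ) (x : κ → E)
    (h : LinearIndependent ℝ (fun k : κ => (fun i : Fin p => w k i • x k))) :
    ∃ c : κ → Fin p, LinearIndependent ℝ (fun k : κ => (Pi.single (c k) (x k) : Fin p → E)) := by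
  classical
  cases nonempty_fintype κ
  rcases isEmpty_or_nonempty κ with hκ | hκ
  · exact ⟨fun k => isEmptyElim k, linearIndependent_empty_type⟩
  have hp : Nonempty (Fin p) := by
    obtain ⟨k⟩ := hκ
    by_contra hne
    rw [not_nonempty_iff] at hne
    exact h.ne_zero k (Subsingleton.elim _ _)
  have key : ∀ T : Finset κ, ∃ c : κ → Fin p, LinearIndependent ℝ
      (fun k : κ => if k ∈ T then (Pi.single (c k) (x k) : Fin p → E)
        else (fun i : Fin p => w k i • x k)) := by
    intro T
    induction T using Finset.induction_on with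
    | empty => exact ⟨fun _ => hp.some, by simpa using h⟩
    | insert k₀ T hk₀ ih =>
      obtain ⟨c, hc⟩ := ih
      set f : κ → (Fin p → E) := fun k : κ => if k ∈ T then (Pi.single (c k) (x k) : Fin p → E)
        else (fun i : Fin p => w k i • x k) with hf
      have huniv : LinearIndepOn ℝ f (insert k₀ {k | k ≠ k₀}) := by
        have : (insert k₀ {k | k ≠ k₀} : Set κ) = Set.univ := by
          ext k; simp [em]
        rw [this, linearIndepOn_univ_iff]
        exact hc
      have hnot : k₀ ∉ ({k | k ≠ k₀} : Set κ) := by simp
      rw [linearIndepOn_insert hnot] at huniv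
      obtain ⟨h1, h2⟩ := huniv
      have hex : ∃ i : Fin p, (Pi.single i (x k₀) : Fin p → E) ∉ span ℝ (f '' {k | k ≠ k₀}) := by
        by_contra hcon
        push Not at hcon
        apply h2
        have : f k₀ = ∑ i : Fin p, w k₀ i • (Pi.single i (x k₀) : Fin p → E) := by
          simp only [hf, if_neg hk₀]
          ext j
          simp only [Finset.sum_apply, Pi.smul_apply, Pi.single_apply]
          simp
        rw [this]
        exact sum_mem fun i _ => smul_mem _ _ (hcon i)
      obtain ⟨i₀, hi₀⟩ := hex
      refine ⟨Function.update c k₀ i₀, ?_⟩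
      set f' : κ → (Fin p → E) := fun k : κ => if k ∈ insert k₀ T then
        (Pi.single (Function.update c k₀ i₀ k) (x k) : Fin p → E)
        else (fun i : Fin p => w k i • x k) with hf'
      have hcongr : ∀ k, k ≠ k₀ → f' k = f k := by
        intro k hk
        simp only [hf', hf, Finset.mem_insert, hk, false_or, Function.update_of_ne hk]
      have himg : f' '' {k | k ≠ k₀} = f '' {k | k ≠ k₀} :=
        Set.image_congr fun k hk => hcongr k hk
      have hk0 : f' k₀ = Pi.single i₀ (x k₀) := by
        simp [hf']
      have h3 : LinearIndepOn ℝ f' (insert k₀ {k | k ≠ k₀}) := by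
        rw [linearIndepOn_insert hnot]
        refine ⟨h1.congr fun k hk => (hcongr k hk).symm, ?_⟩
        rw [himg, hk0]
        exact hi₀
      have : (insert k₀ {k | k ≠ k₀} : Set κ) = Set.univ := by
        ext k; simp [em]
      rw [this, linearIndepOn_univ_iff] at h3
      exact h3
  obtain ⟨c, hc⟩ := key Finset.univ
  exact ⟨c, by simpa using hc⟩

section Rank

variable {ι : Type*} [Fintype ι]

/-- The span of the vectors of colour `i`. -/
def colSpan (u : ι → E) {r : ℕ} (c : ι → Fin r) (i : Fin r) : Submodule ℝ E :=
  span ℝ (u '' {l | c l = i})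

/-- The intersection of the spans of the colour classes. -/
def interSpan (u : ι → E) {r : ℕ} (c : ι → Fin r) : Submodule ℝ E := ⨅ i, colSpan u c i

/-- The sum of the ranks of the colour classes. -/
noncomputable def rankSum (u : ι → E) {r : ℕ} (c : ι → Fin r) : ℕ :=
  ∑ i, Module.finrank ℝ (colSpan u c i)

/-- The largest sum of ranks of the colour classes over all colourings with `r` colours. -/
noncomputable def rho [DecidableEq ι] (u : ι → E) (r : ℕ) : ℕ :=
  Finset.univ.sup (fun c : ι → Fin r => rankSum u c)

theorem rankSum_le_rho [DecidableEq ι] (u : ι → E) {r : ℕ} (c : ι → Fin r) :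
    rankSum u c ≤ rho u r :=
  Finset.le_sup (f := fun c : ι → Fin r => rankSum u c) (Finset.mem_univ c)

theorem exists_rankSum_eq_rho [DecidableEq ι] (u : ι → E) (r : ℕ) [Nonempty (Fin r)] :
    ∃ c : ι → Fin r, rankSum u c = rho u r := by
  classical
  obtain ⟨c, -, hc⟩ := Finset.exists_mem_eq_sup (Finset.univ : Finset (ι → Fin r))
    Finset.univ_nonempty (fun c : ι → Fin r => rankSum u c)
  exact ⟨c, hc.symm⟩

variable [FiniteDimensional ℝ E]

/-- An independent family of vectors `w k ⊗ u (a k)` in `Fin p → E` has at most `rho u p`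
members. -/
theorem card_le_rho [DecidableEq ι] (u : ι → E) {κ : Type*} [Fintype κ] (a : κ → ι)
    (ha : Function.Injective a) {p : ℕ} (w : κ → Fin p → ℝ)
    (h : LinearIndependent ℝ (fun k : κ => (fun i : Fin p => w k i • u (a k)))) :
    Fintype.card κ ≤ rho u p := by
  classical
  obtain ⟨c, hc⟩ := exchange w (fun k => u (a k)) h
  rcases isEmpty_or_nonempty κ with hκ | hκ
  · simp
  have hp : Nonempty (Fin p) := ⟨c hκ.some⟩
  set c' : ι → Fin p := fun l => if hl : ∃ k, a k = l then c hl.choose else hp.some with hc'
  have hc'a : ∀ k, c' (a k) = c k := by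
    intro k
    have hl : ∃ k', a k' = a k := ⟨k, rfl⟩
    simp only [hc', dif_pos hl]
    rw [ha hl.choose_spec]
  refine le_trans ?_ (rankSum_le_rho u c')
  rw [rankSum]
  have h1 : ∀ i : Fin p, Fintype.card {k // c k = i} ≤ Module.finrank ℝ (colSpan u c' i) := by
    intro i
    have hli : LinearIndependent ℝ (fun k : {k // c k = i} => u (a k.1)) := by
      have h2 : LinearIndependent ℝ
          (fun k : {k // c k = i} => (Pi.single (c k.1) (u (a k.1)) : Fin p → E)) :=
        hc.comp (fun k : {k // c k = i} => k.1) Subtype.val_injective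
      have h3 : (fun k : {k // c k = i} => (Pi.single (c k.1) (u (a k.1)) : Fin p → E)) =
          (LinearMap.single ℝ (fun _ : Fin p => E) i) ∘
            (fun k : {k // c k = i} => u (a k.1)) := by
        funext k
        simp [k.2]
      rw [h3] at h2
      exact h2.of_comp _
    rw [← finrank_span_eq_card hli]
    apply Submodule.finrank_mono
    rw [colSpan]
    apply span_mono
    rintro _ ⟨k, rfl⟩
    exact ⟨a k.1, by simp [hc'a, k.2], rfl⟩
  calc Fintype.card κ = ∑ i : Fin p, Fintype.card {k // c k = i} := by
        rw [← Fintype.card_sigma]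
        exact Fintype.card_congr (Equiv.sigmaFiberEquiv c).symm
    _ ≤ _ := Finset.sum_le_sum fun i _ => h1 i

/-- The vectors `e_j - e_0`. -/
def wt {p : ℕ} (j : Fin (p + 1)) (i : Fin p) : ℝ :=
  if j = 0 then -1 else if j = i.succ then 1 else 0

/-- The rank bound. -/
theorem rankSum_le [DecidableEq ι] (u : ι → E) {p : ℕ} (c : ι → Fin (p + 1)) :
    rankSum u c ≤ Module.finrank ℝ (interSpan u c) + rho u p := by
  classical
  -- the linear map
  let F : Fin (p + 1) → E →ₗ[ℝ] (Fin p → E) := fun j => LinearMap.pi fun i => wt j i • LinearMap.id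
  let T : ((j : Fin (p + 1)) → colSpan u c j) →ₗ[ℝ] (Fin p → E) :=
    ∑ j, (F j) ∘ₗ (colSpan u c j).subtype ∘ₗ LinearMap.proj j
  have hT : ∀ s i, T s i = (s i.succ : E) - (s 0 : E) := by
    intro s i
    simp only [T, F, LinearMap.sum_apply, LinearMap.comp_apply, Finset.sum_apply,
      LinearMap.pi_apply, LinearMap.smul_apply, LinearMap.id_apply, LinearMap.proj_apply,
      Submodule.subtype_apply]
    rw [Fin.sum_univ_succ]
    have h0 : wt (0 : Fin (p + 1)) i = -1 := by simp [wt]
    have h1 : ∀ j : Fin p, wt j.succ i • (s j.succ : E) = if j = i then (s i.succ : E) else 0 := by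
      intro j
      by_cases hj : j = i
      · subst hj; simp [wt, Fin.succ_ne_zero]
      · have : j.succ ≠ i.succ := fun h => hj (Fin.succ_injective _ h)
        simp [wt, Fin.succ_ne_zero, hj, this]
    rw [h0, Finset.sum_congr rfl fun j _ => h1 j]
    simp
    abel
  -- kernel
  have hker : Module.finrank ℝ (LinearMap.ker T) ≤ Module.finrank ℝ (interSpan u c) := by
    let G : LinearMap.ker T →ₗ[ℝ] interSpan u c :=
      LinearMap.codRestrict (interSpan u c)
        ((colSpan u c 0).subtype ∘ₗ LinearMap.proj (0 : Fin (p + 1)) ∘ₗ (LinearMap.ker T).subtype)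
        (by
          intro s
          rw [interSpan, Submodule.mem_iInf]
          intro j
          have hs : T s.1 = 0 := s.2
          refine Fin.cases ?_ (fun i => ?_) j
          · exact (s.1 0).2
          · have := congrFun hs i
            rw [hT, Pi.zero_apply, sub_eq_zero] at this
            have h2 : ((s.1 0 : colSpan u c 0) : E) ∈ colSpan u c i.succ := by
              rw [← this]; exact (s.1 i.succ).2
            exact h2)
    have hG : Function.Injective G := by
      rw [injective_iff_map_eq_zero]
      intro s hs
      have h0 : ((s.1 0 : colSpan u c 0) : E) = 0 := congrArg Subtype.val hs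
      have hs' : T s.1 = 0 := s.2
      apply Subtype.ext
      funext j
      apply Subtype.ext
      refine Fin.cases ?_ (fun i => ?_) j
      · exact h0
      · have := congrFun hs' i
        rw [hT, Pi.zero_apply, sub_eq_zero] at this
        rw [this]; exact h0
    exact LinearMap.finrank_le_finrank_of_injective hG
  -- range
  have hrange : Module.finrank ℝ (LinearMap.range T) ≤ rho u p := by
    set g : ι → (Fin p → E) := fun l => fun i => wt (c l) i • u l with hg
    have hle : LinearMap.range T ≤ span ℝ (Set.range g) := by
      rintro _ ⟨s, rfl⟩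
      have : T s = ∑ j, F j (s j : E) := by
        simp [T]
      rw [this]
      refine sum_mem fun j _ => ?_
      have hsj : (s j : E) ∈ span ℝ (u '' {l | c l = j}) := (s j).2
      have h2 : F j (s j : E) ∈ (span ℝ (u '' {l | c l = j})).map (F j) := ⟨_, hsj, rfl⟩
      rw [Submodule.map_span] at h2
      refine span_mono ?_ h2
      rintro _ ⟨_, ⟨l, hl, rfl⟩, rfl⟩
      refine ⟨l, ?_⟩
      have hl' : c l = j := hl
      subst hl'
      rfl
    obtain ⟨κ, a, ha, hspan, hli⟩ := exists_linearIndependent' ℝ g
    have hfin : Finite κ := Finite.of_injective a ha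
    cases nonempty_fintype κ
    have h4 := card_le_rho u a ha (fun k => wt (c (a k))) hli
    calc Module.finrank ℝ (LinearMap.range T) ≤ Module.finrank ℝ (span ℝ (Set.range g)) :=
          Submodule.finrank_mono hle
      _ = Module.finrank ℝ (span ℝ (Set.range (g ∘ a))) := by rw [hspan]
      _ = Fintype.card κ := finrank_span_eq_card hli
      _ ≤ rho u p := h4
  have hrn := LinearMap.finrank_range_add_finrank_ker T
  rw [Module.finrank_pi_fintype] at hrn
  rw [rankSum]
  omega

omit [FiniteDimensional ℝ E] in
theorem rho_zero [DecidableEq ι] (u : ι → E) : rho u 0 = 0 := by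
  simp [rho, rankSum]

omit [FiniteDimensional ℝ E] in
theorem card_le_rho_card [DecidableEq ι] (u : ι → E) (hu : ∀ l, u l ≠ 0) :
    Fintype.card ι ≤ rho u (Fintype.card ι) := by
  classical
  let e : ι ≃ Fin (Fintype.card ι) := Fintype.equivFin ι
  refine le_trans (le_of_eq ?_) (rankSum_le_rho u (fun l => e l))
  have h1 : ∀ i, Module.finrank ℝ (colSpan u (fun l => e l) i) = 1 := by
    intro i
    have h2 : (u '' {l | e l = i}) = {u (e.symm i)} := by
      have : {l | e l = i} = {e.symm i} := by
        ext l
        simp [Equiv.eq_symm_apply]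
      rw [this, Set.image_singleton]
    rw [colSpan, h2]
    exact finrank_span_singleton (hu _)
  rw [rankSum, Finset.sum_congr rfl fun i _ => h1 i]
  simp

end Rank

end Pool.Agent.Helper141
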