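import Mathlib
import Pool.Agent.Helper141_tverberg.Defs
import Pool.Agent.Helper141_tverberg.Linear

set_option autoImplicit false

namespace Pool.Agent.Helper141

open Set

variable {E : Type*} [AddCommGroup E] [Module ℝ E]

theorem scale_down {C : Set E} (hC : Convex ℝ C) {z v : E} (hz : z ∈ C) {ε δ : ℝ} (h0 : 0 ≤ δ)
    (h1 : δ ≤ ε) (h2 : 0 < ε) (h3 : z + ε • v ∈ C) : z + δ • v ∈ C := by
  have h4 := hC hz h3 (a := 1 - δ / ε) (b := δ / ε)
    (by rw [sub_nonneg, div_le_one h2]; exact h1) (by positivity) (by ring)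
  have h5 : (1 - δ / ε) • z + (δ / ε) • (z + ε • v) = z + δ • v := by
    rw [smul_add, smul_smul, div_mul_cancel₀ _ h2.ne', sub_smul, one_smul]
    abel
  rwa [h5] at h4

theorem exists_common_scale {κ : Type*} [Finite κ] {C : κ → Set E} (hC : ∀ i, Convex ℝ (C i))
    {z v : E} (hz : ∀ i, z ∈ C i) (h : ∀ i, ∃ ε : ℝ, 0 < ε ∧ z + ε • v ∈ C i) :
    ∃ ε : ℝ, 0 < ε ∧ ∀ i, z + ε • v ∈ C i := by
  classical
  cases nonempty_fintype κ
  rcases isEmpty_or_nonempty κ with hκ | hκ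
  · exact ⟨1, one_pos, fun i => isEmptyElim i⟩
  choose ε hε hmem using h
  obtain ⟨i₀, -, hi₀⟩ := Finset.exists_min_image Finset.univ ε Finset.univ_nonempty
  exact ⟨ε i₀, hε i₀, fun i => scale_down (hC i) (hz i) (hε i₀).le (hi₀ i (Finset.mem_univ i))
    (hε i) (hmem i)⟩

section Main

variable [FiniteDimensional ℝ E]

open Classical in
/-- One representative of each pair `{x, σ x}`. -/
noncomputable def reps (X : Finset E) (z : E) (σ : E → E) : Finset E :=
  (X.erase z).filter (fun x => WellOrderingRel x (σ x))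

/-- The colouring of `E` extending a colouring of the representatives. -/
noncomputable def extCol (X : Finset E) (z : E) (σ : E → E) {r : ℕ} (d : Fin r)
    (c : {x // x ∈ reps X z σ} → Fin r) (x : E) : Fin r :=
  open Classical in
  if hx : x ∈ reps X z σ then c ⟨x, hx⟩ else if hx : σ x ∈ reps X z σ then c ⟨σ x, hx⟩ else d

variable {X : Finset E} {z : E} {σ : E → E}

omit [FiniteDimensional ℝ E] in
theorem sigma_ne (hσ : ∀ x ∈ X, x ≠ z → σ x ∈ X ∧ σ (σ x) = x ∧ z ∈ openSegment ℝ x (σ x))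
    {x : E} (hx : x ∈ X) (hxz : x ≠ z) : σ x ≠ z ∧ σ x ≠ x := by
  obtain ⟨-, -, h3⟩ := hσ x hx hxz
  constructor
  · intro h
    rw [h] at h3
    exact hxz (right_mem_openSegment_iff.1 h3)
  · intro h
    rw [h, openSegment_same] at h3
    exact hxz h3.symm

omit [AddCommGroup E] [Module ℝ E] [FiniteDimensional ℝ E] in
theorem mem_reps_iff {x : E} : x ∈ reps X z σ ↔ (x ≠ z ∧ x ∈ X) ∧ WellOrderingRel x (σ x) := by
  classical
  simp [reps]

omit [FiniteDimensional ℝ E] in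
theorem reps_or (hσ : ∀ x ∈ X, x ≠ z → σ x ∈ X ∧ σ (σ x) = x ∧ z ∈ openSegment ℝ x (σ x))
    {x : E} (hx : x ∈ X) (hxz : x ≠ z) : x ∈ reps X z σ ∨ σ x ∈ reps X z σ := by
  obtain ⟨h1, h2, -⟩ := hσ x hx hxz
  obtain ⟨h3, h4⟩ := sigma_ne hσ hx hxz
  rcases trichotomous_of (WellOrderingRel : E → E → Prop) x (σ x) with h | h | h
  · exact Or.inl (mem_reps_iff.2 ⟨⟨hxz, hx⟩, h⟩)
  · exact absurd h.symm h4
  · exact Or.inr (mem_reps_iff.2 ⟨⟨h3, h1⟩, by rwa [h2]⟩)

omit [FiniteDimensional ℝ E] in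
theorem not_reps_sigma (hσ : ∀ x ∈ X, x ≠ z → σ x ∈ X ∧ σ (σ x) = x ∧ z ∈ openSegment ℝ x (σ x))
    {x : E} (hx : x ∈ reps X z σ) : σ x ∉ reps X z σ := by
  intro h
  rw [mem_reps_iff] at hx h
  obtain ⟨-, h2, -⟩ := hσ x hx.1.2 hx.1.1
  rw [h2] at h
  exact asymm_of (WellOrderingRel : E → E → Prop) hx.2 h.2

omit [FiniteDimensional ℝ E] in
theorem card_erase_eq [DecidableEq E]
    (hσ : ∀ x ∈ X, x ≠ z → σ x ∈ X ∧ σ (σ x) = x ∧ z ∈ openSegment ℝ x (σ x)) :
    (X.erase z).card = 2 * (reps X z σ).card := by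
  have h1 : X.erase z = reps X z σ ∪ (reps X z σ).image σ := by
    ext x
    simp only [Finset.mem_erase, Finset.mem_union, Finset.mem_image]
    constructor
    · rintro ⟨hxz, hx⟩
      rcases reps_or hσ hx hxz with h | h
      · exact Or.inl h
      · exact Or.inr ⟨σ x, h, (hσ x hx hxz).2.1⟩
    · rintro (h | ⟨y, hy, rfl⟩)
      · exact (mem_reps_iff.1 h).1
      · obtain ⟨⟨h1, h2⟩, -⟩ := mem_reps_iff.1 hy
        exact ⟨(sigma_ne hσ h2 h1).1, (hσ y h2 h1).1⟩
  have h2 : Disjoint (reps X z σ) ((reps X z σ).image σ) := by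
    rw [Finset.disjoint_left]
    intro x hx hx'
    rw [Finset.mem_image] at hx'
    obtain ⟨y, hy, rfl⟩ := hx'
    exact not_reps_sigma hσ hy hx
  have h3 : ((reps X z σ).image σ).card = (reps X z σ).card := by
    apply Finset.card_image_of_injOn
    intro x hx y hy hxy
    obtain ⟨⟨h1, h2⟩, -⟩ := mem_reps_iff.1 hx
    obtain ⟨⟨h1', h2'⟩, -⟩ := mem_reps_iff.1 hy
    have hxy' : σ x = σ y := hxy
    rw [← (hσ x h2 h1).2.1, ← (hσ y h2' h1').2.1, hxy']
  rw [h1, Finset.card_union_of_disjoint h2, h3]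
  ring

omit [AddCommGroup E] [Module ℝ E] [FiniteDimensional ℝ E] in
theorem extCol_rep {r : ℕ} (d : Fin r) (c : {x // x ∈ reps X z σ} → Fin r)
    (l : {x // x ∈ reps X z σ}) : extCol X z σ d c l.1 = c l := by
  unfold extCol
  rw [dif_pos l.2]

omit [FiniteDimensional ℝ E] in
theorem extCol_sigma (hσ : ∀ x ∈ X, x ≠ z → σ x ∈ X ∧ σ (σ x) = x ∧ z ∈ openSegment ℝ x (σ x))
    {r : ℕ} (d : Fin r) (c : {x // x ∈ reps X z σ} → Fin r)
    (l : {x // x ∈ reps X z σ}) : extCol X z σ d c (σ l.1) = c l := by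
  obtain ⟨⟨h1, h2⟩, -⟩ := mem_reps_iff.1 l.2
  have h3 := (hσ l.1 h2 h1).2.1
  have h4 : σ (σ l.1) ∈ reps X z σ := by rw [h3]; exact l.2
  unfold extCol
  rw [dif_neg (not_reps_sigma hσ l.2), dif_pos h4]
  congr 1
  exact Subtype.ext h3

omit [FiniteDimensional ℝ E] in
/-- For a colour used by some pair, `z` lies in the hull of the colour class, and the direction
of that pair is two-sided. -/
theorem pair_mem (hσ : ∀ x ∈ X, x ≠ z → σ x ∈ X ∧ σ (σ x) = x ∧ z ∈ openSegment ℝ x (σ x))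
    {r : ℕ} (ĉ : E → Fin r) (i : Fin r) (l : {x // x ∈ reps X z σ}) (h1 : ĉ l.1 = i)
    (h2 : ĉ (σ l.1) = i) : z ∈ convexHull ℝ (colorClass X ĉ i) ∧
      ∃ ε : ℝ, 0 < ε ∧ z + ε • (l.1 - z) ∈ convexHull ℝ (colorClass X ĉ i) ∧
        z - ε • (l.1 - z) ∈ convexHull ℝ (colorClass X ĉ i) := by
  obtain ⟨⟨h3, h4⟩, -⟩ := mem_reps_iff.1 l.2
  obtain ⟨h5, h6, h7⟩ := hσ l.1 h4 h3
  have hC : Convex ℝ (convexHull ℝ (colorClass X ĉ i)) := convex_convexHull ℝ _
  have hl : l.1 ∈ convexHull ℝ (colorClass X ĉ i) := subset_convexHull ℝ _ ⟨h4, h1⟩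
  have hl' : σ l.1 ∈ convexHull ℝ (colorClass X ĉ i) := subset_convexHull ℝ _ ⟨h5, h2⟩
  have hz : z ∈ convexHull ℝ (colorClass X ĉ i) := hC.openSegment_subset hl hl' h7
  refine ⟨hz, ?_⟩
  obtain ⟨a, b, ha, hb, hab, hzeq⟩ := h7
  refine ⟨a, ha, ?_, ?_⟩
  · have := hC hz hl (a := 1 - a) (b := a) (by linarith) ha.le (by ring)
    have h8 : (1 - a) • z + a • l.1 = z + a • (l.1 - z) := by
      rw [sub_smul, smul_sub, one_smul]; abel
    rwa [h8] at this
  · have := hC hz hl' (a := 1 - b) (b := b) (by linarith) hb.le (by ring)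
    have h8 : (1 - b) • z + b • σ l.1 = z - a • (l.1 - z) := by
      have h9 : b • σ l.1 = z - a • l.1 := eq_sub_of_add_eq' hzeq
      rw [h9]
      have h10 : (1 - b) = a := by linarith
      rw [h10, smul_sub]; abel
    rwa [h8] at this

omit [FiniteDimensional ℝ E] in
theorem z_mem_cell (hσ : ∀ x ∈ X, x ≠ z → σ x ∈ X ∧ σ (σ x) = x ∧ z ∈ openSegment ℝ x (σ x))
    {r : ℕ} (d : Fin r) (c : {x // x ∈ reps X z σ} → Fin r) (hc : Function.Surjective c) :
    z ∈ cell X (extCol X z σ d c) := by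
  rw [cell, Set.mem_iInter]
  intro i
  obtain ⟨l, hl⟩ := hc i
  exact (pair_mem hσ _ i l (by rw [extCol_rep, hl]) (by rw [extCol_sigma hσ, hl])).1

theorem finrank_le_tdim
    (hσ : ∀ x ∈ X, x ≠ z → σ x ∈ X ∧ σ (σ x) = x ∧ z ∈ openSegment ℝ x (σ x))
    {r : ℕ} (d : Fin r) (c : {x // x ∈ reps X z σ} → Fin r) (hc : Function.Surjective c) :
    (Module.finrank ℝ (interSpan (fun l : {x // x ∈ reps X z σ} => l.1 - z) c) : ℤ) ≤
      tdim X r := by
  refine le_trans ?_ (pdim_le_tdim X (extCol X z σ d c))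
  apply finrank_le_pdim (z_mem_cell hσ d c hc)
  intro w hw
  rw [interSpan, Submodule.mem_iInf] at hw
  have hz := z_mem_cell hσ d c hc
  rw [cell, Set.mem_iInter] at hz
  obtain ⟨ε, hε, hmem⟩ := exists_common_scale
    (C := fun i => convexHull ℝ (colorClass X (extCol X z σ d c) i)) (v := w)
    (fun i => convex_convexHull ℝ _) hz (by
      intro i
      obtain ⟨ε, h1, h2, -⟩ := twoSided_of_mem_span (convex_convexHull ℝ _) (hz i)
        (S := (fun l : {x // x ∈ reps X z σ} => l.1 - z) '' {l | c l = i}) (w := w) (by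
          rintro _ ⟨l, hl, rfl⟩
          have hl' : c l = i := hl
          exact (pair_mem hσ _ i l (by rw [extCol_rep, hl']) (by rw [extCol_sigma hσ, hl'])).2)
        (hw i)
      exact ⟨ε, h1, h2⟩)
  refine ⟨ε, hε, ?_⟩
  rw [cell, Set.mem_iInter]
  exact hmem

theorem exists_surj {ι : Type*} [Fintype ι] {r : ℕ} (hr : 1 ≤ r) (h : r ≤ Fintype.card ι) :
    ∃ c : ι → Fin r, Function.Surjective c := by
  classical
  have : Nonempty (Fin r) := ⟨⟨0, hr⟩⟩
  obtain ⟨f⟩ := Function.Embedding.nonempty_of_card_le (α := Fin r) (β := ι) (by simpa using h)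
  exact ⟨Function.invFun f, Function.invFun_surjective f.injective⟩

open Classical in
theorem rho_diff_le_tdim
    (hσ : ∀ x ∈ X, x ≠ z → σ x ∈ X ∧ σ (σ x) = x ∧ z ∈ openSegment ℝ x (σ x))
    {p : ℕ} (hp : p + 1 ≤ (reps X z σ).card) :
    (rho (fun l : {x // x ∈ reps X z σ} => l.1 - z) (p + 1) : ℤ) -
      rho (fun l : {x // x ∈ reps X z σ} => l.1 - z) p ≤ tdim X (p + 1) := by
  obtain ⟨c, hc⟩ := exists_rankSum_eq_rho (fun l : {x // x ∈ reps X z σ} => l.1 - z) (p + 1)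
  have h1 := rankSum_le (fun l : {x // x ∈ reps X z σ} => l.1 - z) c
  by_cases hs : Function.Surjective c
  · have h2 := finrank_le_tdim hσ 0 c hs
    rw [hc] at h1
    omega
  · have h3 : interSpan (fun l : {x // x ∈ reps X z σ} => l.1 - z) c = ⊥ := by
      rw [Function.Surjective] at hs
      push Not at hs
      obtain ⟨i, hi⟩ := hs
      rw [eq_bot_iff]
      intro w hw
      rw [interSpan, Submodule.mem_iInf] at hw
      have h4 := hw i
      have h5 : {l | c l = i} = ∅ := by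
        ext l; simp [hi l]
      rw [colSpan, h5, Set.image_empty, Submodule.span_empty] at h4
      exact h4
    rw [h3, finrank_bot, hc] at h1
    obtain ⟨c', hc'⟩ := exists_surj (ι := {x // x ∈ reps X z σ}) (r := p + 1) (by omega)
      (by simpa using hp)
    have h6 := zero_le_tdim_of_mem X _ (z_mem_cell hσ 0 c' hc')
    omega

theorem zero_le_tdim_succ
    (hσ : ∀ x ∈ X, x ≠ z → σ x ∈ X ∧ σ (σ x) = x ∧ z ∈ openSegment ℝ x (σ x)) (hz : z ∈ X) :
    0 ≤ tdim X ((reps X z σ).card + 1) := by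
  classical
  set k := (reps X z σ).card with hk
  let e : {x // x ∈ reps X z σ} ≃ Fin k := Fintype.equivFinOfCardEq (by simp [hk])
  have hzr : z ∉ reps X z σ := fun h => (mem_reps_iff.1 h).1.1 rfl
  let c : E → Fin (k + 1) := fun x => if x = z then Fin.last k else
    extCol X z σ (Fin.last k) (fun l => (e l).castSucc) x
  refine zero_le_tdim_of_mem X c (x := z) ?_
  rw [cell, Set.mem_iInter]
  intro i
  refine Fin.lastCases ?_ (fun j => ?_) i
  · exact subset_convexHull ℝ _ ⟨hz, by simp [c]⟩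
  · obtain ⟨⟨h1, h2⟩, -⟩ := mem_reps_iff.1 (e.symm j).2
    obtain ⟨h3, h4⟩ := sigma_ne hσ h2 h1
    refine (pair_mem hσ c j.castSucc (e.symm j) ?_ ?_).1
    · simp only [c]
      rw [if_neg h1, extCol_rep, Equiv.apply_symm_apply]
    · simp only [c]
      rw [if_neg h3, extCol_sigma hσ, Equiv.apply_symm_apply]

theorem sum_tdim_nonneg
    (hσ : ∀ x ∈ X, x ≠ z → σ x ∈ X ∧ σ (σ x) = x ∧ z ∈ openSegment ℝ x (σ x)) :
    0 ≤ ∑ r ∈ Finset.Icc 1 X.card, tdim X r := by
  classical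
  set k := (reps X z σ).card with hk
  set u : {x // x ∈ reps X z σ} → E := fun l => l.1 - z with hu
  have hcard := card_erase_eq hσ
  rw [← hk] at hcard
  have hfirst : (k : ℤ) ≤ ∑ p ∈ Finset.range k, tdim X (p + 1) := by
    have h1 : ∑ p ∈ Finset.range k, ((rho u (p + 1) : ℤ) - rho u p) ≤
        ∑ p ∈ Finset.range k, tdim X (p + 1) := by
      apply Finset.sum_le_sum
      intro p hp
      exact rho_diff_le_tdim hσ (by rw [Finset.mem_range] at hp; omega)
    rw [Finset.sum_range_sub (fun p => (rho u p : ℤ)), rho_zero] at h1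
    have h2 := card_le_rho_card u (by
      intro l hl
      exact (mem_reps_iff.1 l.2).1.1 (sub_eq_zero.1 hl))
    rw [Fintype.card_coe, ← hk] at h2
    push_cast at h1
    omega
  have hrest : ∀ a b : ℕ, -(b : ℤ) ≤ ∑ p ∈ Finset.range b, tdim X (a + p + 1) := by
    intro a b
    have : ∑ p ∈ Finset.range b, (-1 : ℤ) ≤ ∑ p ∈ Finset.range b, tdim X (a + p + 1) :=
      Finset.sum_le_sum fun p _ => neg_one_le_tdim X (by omega)
    simpa using this
  have hIcc : ∑ r ∈ Finset.Icc 1 X.card, tdim X r = ∑ p ∈ Finset.range X.card, tdim X (p + 1) := by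
    rw [Finset.range_eq_Ico, Finset.sum_Ico_add' (fun r => tdim X r) 0 X.card 1]
    rfl
  rw [hIcc]
  by_cases hz : z ∈ X
  · rw [Finset.card_erase_of_mem hz] at hcard
    have hpos : 0 < X.card := Finset.card_pos.2 ⟨z, hz⟩
    have hn : X.card = k + (1 + k) := by omega
    rw [hn, Finset.sum_range_add, Finset.sum_range_add]
    have h3 := zero_le_tdim_succ hσ hz
    rw [← hk] at h3
    have h4 := hrest (k + 1) k
    simp only [Finset.range_one, Finset.sum_singleton, add_zero, ← add_assoc]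
    omega
  · rw [Finset.erase_eq_of_notMem hz] at hcard
    have hn : X.card = k + k := by omega
    rw [hn, Finset.sum_range_add]
    have h4 := hrest k k
    omega

end Main

end Pool.Agent.Helper141
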